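import Pool.Agent.Lib.DT.GL.Spec
import Pool.Agent.Lib.MuZ.Tot
import Pool.Agent.Lib.MuZ.QZ

/-!
# Theorem DT, part GL, module App: approximation of a cube root fixed by the decomposition group
-/

set_option autoImplicit false

open scoped Pointwise

noncomputable section

namespace Pool.Agent.DT.GL

open Pool.Agent.MuZ Pool.Agent.FW
open Pool.Agent.DI (VP MP UP TP)
open Pool.Agent.DI.GL (Fx StP mem_of_Fx Fx.mul Fx.inv Fx.one)

/-- The subgroup fixing `F` and `r`. -/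
private def App_H (F : IntermediateField ℚ Om) (r : Om) : Subgroup Gal(Om/ℚ) where
  carrier := {h | Fx F h ∧ h r = r}
  mul_mem' := by
    rintro a b ⟨ha, ha'⟩ ⟨hb, hb'⟩
    refine ⟨ha.mul hb, ?_⟩
    rw [AlgEquiv.mul_apply, hb', ha']
  one_mem' := ⟨Fx.one, rfl⟩
  inv_mem' := by
    rintro a ⟨ha, ha'⟩
    refine ⟨ha.inv, ?_⟩
    have h1 : a⁻¹ (a r) = r := by
      rw [← AlgEquiv.mul_apply, inv_mul_cancel, AlgEquiv.one_apply]
    rwa [ha'] at h1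

private theorem App_closed (F : IntermediateField ℚ Om) (r : Om) :
    IsClosed (App_H F r : Set Gal(Om/ℚ)) := by
  have h1 : (App_H F r : Set Gal(Om/ℚ)) =
      (F.fixingSubgroup : Set Gal(Om/ℚ)) ∩ {h : Gal(Om/ℚ) | h r = r} := by
    ext h
    constructor
    · rintro ⟨ha, hb⟩
      exact ⟨(IntermediateField.mem_fixingSubgroup_iff F h).mpr ha, hb⟩
    · rintro ⟨ha, hb⟩
      exact ⟨(IntermediateField.mem_fixingSubgroup_iff F h).mp ha, hb⟩
  rw [h1]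
  exact (InfiniteGalois.fixingSubgroup_isClosed F).inter (QZ.eq_closed' r r)

private theorem App_inv (a : Gal(Om/ℚ)) (x y : Om) (h : a x = y) : a⁻¹ y = x := by
  rw [← h, ← AlgEquiv.mul_apply, inv_mul_cancel, AlgEquiv.one_apply]

/-- Step 1. -/
private theorem App_step (hStb : C_Stb) (hArch : C_Arch) (F : IntermediateField ℚ Om)
    (P : Ideal ZZ) (hP : P.IsPrime) (h3 : MP P 3) (r : Om)
    (hfix : ∀ d : Gal(Om/ℚ), StP P d → Fx F d → d r = r) (γ : Gal(Om/ℚ)) (hγ : Fx F γ)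
    (hγr : γ r ≠ r) :
    ∃ t : ZZ, (∀ h ∈ App_H F r, h • t = t) ∧ t ∉ P ∧ γ • t ∈ P := by
  have : P.IsPrime := hP
  by_cases hall : ∀ x : ZZ, (∀ h ∈ App_H F r, h • x = x) → (x ∈ P ↔ x ∈ γ⁻¹ • P)
  · exfalso
    obtain ⟨h, hh, hgh⟩ := tot_trans (App_H F r) (App_closed F r) P (γ⁻¹ • P) hP
      (hP.smul γ⁻¹) hall
    have h4 : (γ * h) • P = P := by
      rw [mul_smul, ← hgh, smul_inv_smul]
    have h5 : (γ * h) r = r := hfix (γ * h)
      (((hStb P hP h3).2.1 (γ * h)).2 (MulAction.mem_stabilizer_iff.2 h4)) (hγ.mul hh.1)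
    rw [AlgEquiv.mul_apply, hh.2] at h5
    exact hγr h5
  · rw [not_forall] at hall
    obtain ⟨x, hx⟩ := hall
    rw [Classical.not_imp] at hx
    obtain ⟨hx1, hx2⟩ := hx
    have h4 : x ∈ γ⁻¹ • P ↔ γ • x ∈ P := Ideal.mem_inv_pointwise_smul_iff
    rw [h4] at hx2
    by_cases hxP : x ∈ P
    · have hgx : γ • x ∉ P := fun h => hx2 ⟨fun _ => h, fun _ => hxP⟩
      have hu : UP P ((γ • x : ZZ) : Om) :=
        ⟨DI.VP.coe _, fun h => hgx ((DI.MP.coe_iff _).1 h)⟩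
      obtain ⟨j, hj0, hj⟩ := (hArch P hP h3).2.2 _ hu 1
      have hj' : MP P (((γ • x : ZZ) : Om) ^ j - 1) := by
        refine tp_mp hj ?_
        rw [pow_one]
        exact h3
      refine ⟨1 - x ^ j, fun h hh => ?_, fun h => ?_, ?_⟩
      · rw [smul_sub, smul_one, smul_pow', hx1 h hh]
      · refine hP.ne_top ((Ideal.eq_top_iff_one P).2 ?_)
        have h5 := P.add_mem h (P.pow_mem_of_mem hxP j hj0)
        rwa [sub_add_cancel] at h5
      · rw [smul_sub, smul_one, smul_pow']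
        have h5 : (γ • x) ^ j - 1 ∈ P := by
          rw [← DI.MP.coe_iff]
          push_cast
          exact hj'
        have h6 := P.neg_mem h5
        rwa [neg_sub] at h6
    · refine ⟨x, hx1, hxP, ?_⟩
      by_contra hgx
      exact hx2 ⟨fun h => absurd h hxP, fun h => absurd h hgx⟩

theorem tApp : S_App := by
  intro hStb hArch F P hP h3 hw r hr3 hfix M
  have : P.IsPrime := hP
  by_cases hrF : r ∈ F
  · refine ⟨r, hrF, 0, DI.VP.zero, ?_⟩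
    rw [sub_self, mul_zero]
  have hr0 : r ≠ 0 := fun h => hrF (h ▸ F.zero_mem)
  obtain ⟨w, hwe⟩ : ∃ w : Om, w = zet 3 := ⟨_, rfl⟩
  have hwF : w ∈ F := hwe ▸ hw
  have hw3 : w ^ 3 = 1 := hwe ▸ zet3_cube
  have hwp : IsPrimitiveRoot w 3 := hwe ▸ zet3_prim
  have hwV : VP P w := hwe ▸ zet3_vp
  have hw0 : w ≠ 0 := hwp.ne_zero (by norm_num)
  have hpm : ∀ τ : Gal(Om/ℚ), Fx F τ → ∃ k : ℕ, k < 3 ∧ τ r = w ^ k * r := by
    intro τ hτ
    have h4 : (τ r / r) ^ 3 = 1 := by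
      rw [div_pow, ← map_pow, hτ _ hr3, div_self (pow_ne_zero 3 hr0)]
    obtain ⟨k, hk, hk'⟩ := hwp.eq_pow_of_pow_eq_one h4
    refine ⟨k, hk, ?_⟩
    rw [hk', div_mul_cancel₀ _ hr0]
  obtain ⟨g, hgF, hgr⟩ : ∃ g : Gal(Om/ℚ), Fx F g ∧ g r = w * r := by
    by_contra hcon
    refine hrF (mem_of_Fx fun τ hτ => ?_)
    obtain ⟨k, hk, hk'⟩ := hpm τ hτ
    interval_cases k
    · rw [hk', pow_zero, one_mul]
    · exact absurd ⟨τ, hτ, by rw [hk', pow_one]⟩ hcon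
    · refine absurd ⟨τ * τ, hτ.mul hτ, ?_⟩ hcon
      rw [AlgEquiv.mul_apply, hk', map_mul, map_pow, hτ w hwF, hk']
      linear_combination (w * r) * hw3
  have hgp : ∀ j : ℕ, Fx F (g ^ j) ∧ (g ^ j) r = w ^ j * r := by
    intro j
    induction j with
    | zero =>
      rw [pow_zero, pow_zero, one_mul]
      exact ⟨Fx.one, rfl⟩
    | succ j ih =>
      rw [pow_succ']
      refine ⟨hgF.mul ih.1, ?_⟩
      rw [AlgEquiv.mul_apply, ih.2, map_mul, map_pow, hgF w hwF, hgr]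
      ring
  -- the elements `t₁`, `t₂`
  obtain ⟨t1, t1H, t1P, gt1⟩ := App_step hStb hArch F P hP h3 r hfix g hgF (by
    rw [hgr]
    intro h
    have h4 : w = 1 := mul_right_cancel₀ hr0 (by rw [h, one_mul])
    exact hwp.ne_one (by norm_num) h4)
  obtain ⟨t2, t2H, t2P, gt2⟩ := App_step hStb hArch F P hP h3 r hfix (g ^ 2) (hgp 2).1 (by
    rw [(hgp 2).2]
    intro h
    have h4 : w ^ 2 = 1 := mul_right_cancel₀ hr0 (by rw [h, one_mul])
    exact hwp.pow_ne_one_of_pos_of_lt (by norm_num) (by norm_num) h4)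
  obtain ⟨t, ht⟩ : ∃ t : ZZ, t = t1 * t2 := ⟨_, rfl⟩
  have htH : ∀ h ∈ App_H F r, h • t = t := by
    intro h hh
    rw [ht, smul_mul', t1H h hh, t2H h hh]
  have htP : t ∉ P := by
    rw [ht]
    intro h
    rcases hP.mem_or_mem h with h | h
    · exact t1P h
    · exact t2P h
  have hg1 : g • t ∈ P := by
    rw [ht, smul_mul']
    exact P.mul_mem_right _ gt1
  have hg2 : (g ^ 2) • t ∈ P := by
    rw [ht, smul_mul']
    exact P.mul_mem_left _ gt2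
  obtain ⟨a1, a2, a3⟩ := hArch P hP h3
  obtain ⟨K, hK⟩ := a1 r
  have htU : UP P (t : Om) := ⟨DI.VP.coe t, fun h => htP ((DI.MP.coe_iff t).1 h)⟩
  have hM1 : MP P (g (t : Om)) := by
    rw [← DI.smul_coe]
    exact (DI.MP.coe_iff (g • t)).2 hg1
  have hM2 : MP P ((g ^ 2) (t : Om)) := by
    rw [← DI.smul_coe]
    exact (DI.MP.coe_iff (g ^ 2 • t)).2 hg2
  obtain ⟨j, hj0, y0, hy0, hj⟩ := a3 (t : Om) htU (M + K)
  obtain ⟨n1, hn1⟩ := a2 (g (t : Om)) hM1 (M + K)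
  obtain ⟨n2, hn2⟩ := a2 ((g ^ 2) (t : Om)) hM2 (M + K)
  obtain ⟨n0, hn0, hn0'⟩ : ∃ n0 : ℕ, n1 ≤ n0 ∧ n2 ≤ n0 := ⟨n1 + n2, by omega, by omega⟩
  have hjn : n0 ≤ j * (n0 + 1) := by nlinarith
  obtain ⟨e, he⟩ : ∃ e : Om, e = (t : Om) ^ (j * (n0 + 1)) := ⟨_, rfl⟩
  have heH : ∀ h ∈ App_H F r, h e = e := by
    intro h hh
    rw [he, map_pow, ← DI.smul_coe, htH h hh]
  obtain ⟨y1, hy1, he1⟩ : TP P (3 ^ (M + K)) (g e) := by
    rw [he, map_pow]
    exact hn1 _ (hn0.trans hjn)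
  obtain ⟨y2, hy2, he2⟩ : TP P (3 ^ (M + K)) ((g ^ 2) e) := by
    rw [he, map_pow]
    exact hn2 _ (hn0'.trans hjn)
  obtain ⟨y3, hy3, he3⟩ : ∃ y3 : Om, VP P y3 ∧ e - 1 = 3 ^ (M + K) * y3 := by
    refine ⟨y0 * ∑ i ∈ Finset.range (n0 + 1), ((t : Om) ^ j) ^ i,
      hy0.mul (DI.VP.sum _ _ fun i _ => ((DI.VP.coe t).pow j).pow i), ?_⟩
    rw [← mul_assoc, ← hj, mul_geom_sum, he, pow_mul]
  -- the elements `g ^ j (e r)`
  obtain ⟨x, hx⟩ : ∃ x : Om, x = e * r := ⟨_, rfl⟩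
  have hxH : ∀ h ∈ App_H F r, h x = x := by
    intro h hh
    rw [hx, map_mul, heH h hh, hh.2]
  have hτ : ∀ (τ : Gal(Om/ℚ)) (k i : ℕ), Fx F τ → τ r = w ^ k * r →
      τ ((g ^ i) x) = (g ^ (i + k)) x := by
    intro τ k i h5 h6
    have h7 : (g ^ (i + k))⁻¹ * (τ * g ^ i) ∈ App_H F r := by
      refine ⟨(hgp _).1.inv.mul (h5.mul (hgp i).1), ?_⟩
      rw [AlgEquiv.mul_apply, AlgEquiv.mul_apply, (hgp i).2, map_mul, map_pow, h5 w hwF, h6]
      refine App_inv _ _ _ ?_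
      rw [(hgp _).2]
      ring
    have h8 := hxH _ h7
    rw [AlgEquiv.mul_apply, AlgEquiv.mul_apply] at h8
    have h9 : (g ^ (i + k)) ((g ^ (i + k))⁻¹ (τ ((g ^ i) x))) = (g ^ (i + k)) x := by rw [h8]
    rwa [← AlgEquiv.mul_apply, mul_inv_cancel, AlgEquiv.one_apply] at h9
  have hg3 : ∀ i : ℕ, (g ^ (i + 3)) x = (g ^ i) x := by
    intro i
    have h5 : g ^ 3 ∈ App_H F r := ⟨(hgp 3).1, by rw [(hgp 3).2, hw3, one_mul]⟩
    rw [pow_add, AlgEquiv.mul_apply, hxH _ h5]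
  refine ⟨(g ^ 0) x + (g ^ 1) x + (g ^ 2) x, mem_of_Fx fun τ hτF => ?_,
    3 ^ K * r * (-(y3 + y1 * w + y2 * w ^ 2)),
    hK.mul ((hy3.add (hy1.mul hwV)).add (hy2.mul (hwV.pow 2))).neg, ?_⟩
  · obtain ⟨k, hk, hk'⟩ := hpm τ hτF
    rw [map_add, map_add, hτ τ k 0 hτF hk', hτ τ k 1 hτF hk', hτ τ k 2 hτF hk']
    have e3 : (g ^ 3) x = (g ^ 0) x := hg3 0
    have e4 : (g ^ 4) x = (g ^ 1) x := hg3 1
    interval_cases k
    · rfl
    · change (g ^ 1) x + (g ^ 2) x + (g ^ 3) x = _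
      rw [e3]
      ring
    · change (g ^ 2) x + (g ^ 3) x + (g ^ 4) x = _
      rw [e3, e4]
      ring
  · have e0 : (g ^ 0) x = e * r := by rw [pow_zero, AlgEquiv.one_apply, hx]
    have e1 : (g ^ 1) x = 3 ^ (M + K) * y1 * (w * r) := by
      rw [hx, map_mul, (hgp 1).2, pow_one, pow_one, he1]
    have e2 : (g ^ 2) x = 3 ^ (M + K) * y2 * (w ^ 2 * r) := by
      rw [hx, map_mul, (hgp 2).2, he2]
    rw [e0, e1, e2]
    rw [pow_add] at he3 ⊢
    linear_combination (-r) * he3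

end Pool.Agent.DT.GL
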