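import Pool.Agent.Lib.DT.GL.Spec

/-!
# THEOREM DT, part GL, module Arch: the valuation of `V_P` has rank one (edit of `DI/G/L/Arch.lean`)
-/

set_option autoImplicit false

open scoped Pointwise

noncomputable section

namespace Pool.Agent.DT.GL

open Pool.Agent.MuZ Pool.Agent.FW
open Pool.Agent.DI (VP MP UP TP)
open Pool.Agent.DI.GL (Fx StP mem_of_Fx Fx.mul Fx.inv Fx.one)

private theorem Arch_tp {P : Ideal ZZ} {c x : Om} (hc : c ≠ 0) : TP P c x ↔ VP P (x / c) := by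
  constructor
  · rintro ⟨y, hy, rfl⟩
    rwa [mul_div_cancel_left₀ _ hc]
  · intro h
    exact ⟨x / c, h, (mul_div_cancel₀ x hc).symm⟩

private theorem Arch_two {P : Ideal ZZ} (hP : P.IsPrime) (h2 : MP P 3) : (3 : ZZ) ∈ P := by
  have := hP
  have h : MP P ((3 : ℕ) : Om) := by simpa using h2
  have h1 := (DI.MP.nat_iff 3).1 h
  simpa using h1

private theorem Arch_odd {P : Ideal ZZ} (hP : P.IsPrime) (h2 : (3 : ZZ) ∈ P) {m : ℕ}
    (hm : ¬ 3 ∣ m) : (m : ZZ) ∉ P := by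
  intro h
  have hc : IsCoprime (m : ℤ) (3 : ℤ) :=
    Nat.isCoprime_iff_coprime.2 (((Nat.Prime.coprime_iff_not_dvd Nat.prime_three).2 hm).symm)
  obtain ⟨a, b, hab⟩ := hc
  have h1 : (a : ZZ) * (m : ZZ) + (b : ZZ) * 3 = 1 := by exact_mod_cast congrArg (Int.cast : ℤ → ZZ) hab
  have h3 := P.add_mem (P.mul_mem_left (a : ZZ) h) (P.mul_mem_left (b : ZZ) h2)
  rw [h1] at h3
  exact hP.one_notMem h3

private theorem Arch_one {P : Ideal ZZ} (hP : P.IsPrime) (h2 : MP P 3) (x : Om) :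
    ∃ k : ℕ, VP P (3 ^ k * x) := by
  have hx : IsAlgebraic ℤ x := by
    rw [IsFractionRing.isAlgebraic_iff ℤ ℚ Om]
    exact Algebra.IsAlgebraic.isAlgebraic x
  obtain ⟨n, hn, hi⟩ := hx.exists_integral_multiple
  obtain ⟨k, m, hm, hkm⟩ := Nat.exists_eq_pow_mul_and_not_dvd (Int.natAbs_ne_zero.2 hn) 3
    (by norm_num)
  have h2P := Arch_two hP h2
  refine ⟨k, ?_⟩
  have hi' : IsIntegral ℤ (((n.natAbs : ℕ) : Om) * x) := by
    rcases Int.natAbs_eq n with h | h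
    · have e : ((n.natAbs : ℕ) : Om) * x = n • x := by
        conv_rhs => rw [h]
        rw [zsmul_eq_mul, Int.cast_natCast]
      rw [e]
      exact hi
    · have e : ((n.natAbs : ℕ) : Om) * x = -(n • x) := by
        conv_rhs => rw [h]
        rw [zsmul_eq_mul, Int.cast_neg, Int.cast_natCast]
        ring
      rw [e]
      exact hi.neg
  refine ⟨⟨_, hi'⟩, (m : ZZ), Arch_odd hP h2P hm, ?_⟩
  change 3 ^ k * x * ((m : ZZ) : Om) = ((n.natAbs : ℕ) : Om) * x
  rw [hkm]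
  push_cast
  ring

private theorem Arch_max {J : Ideal ZZ} (hJ : J.IsPrime) (h2 : (3 : ZZ) ∈ J) : J.IsMaximal := by
  have hc : (J.comap (algebraMap ℤ ZZ)).IsPrime := inferInstance
  have h2' : (3 : ℤ) ∈ J.comap (algebraMap ℤ ZZ) := by
    rw [Ideal.mem_comap]
    simpa using h2
  have hne : J.comap (algebraMap ℤ ZZ) ≠ ⊥ := by
    intro h
    rw [h] at h2'
    exact three_ne_zero ((Submodule.mem_bot ℤ).1 h2')
  have hm : (J.comap (algebraMap ℤ ZZ)).IsMaximal := hc.isMaximal hne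
  exact Ideal.isMaximal_of_isIntegral_of_isMaximal_comap J hm

/-- The ideal of the elements which are divisible by all powers of `y`. -/
private def Arch_J (P : Ideal ZZ) (hP : P.IsPrime) (y : Om) : Ideal ZZ where
  carrier := {x | ∀ K : ℕ, VP P ((x : Om) / y ^ K)}
  add_mem' := by
    intro a b ha hb K
    have := hP
    have h := (ha K).add (hb K)
    rw [← add_div] at h
    simpa using h
  zero_mem' := by
    intro K
    have := hP
    have h : VP P 0 := DI.VP.zero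
    simpa using h
  smul_mem' := by
    intro c x hx K
    have := hP
    have h := (DI.VP.coe (P := P) c).mul (hx K)
    rw [← mul_div_assoc] at h
    simpa using h

private theorem Arch_half {P : Ideal ZZ} (hP : P.IsPrime) (h2 : MP P 3) {y : Om} (hy : MP P y) :
    ∃ K : ℕ, VP P (y ^ K / 3) := by
  have := hP
  by_contra hcon
  push Not at hcon
  have h2P := Arch_two hP h2
  have hy0 : y ≠ 0 := by
    rintro rfl
    refine hcon 1 ?_
    rw [pow_one, zero_div]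
    exact DI.VP.zero
  have hyK : ∀ K : ℕ, y ^ K ≠ 0 := fun K => pow_ne_zero K hy0
  have hmem : ∀ x : ZZ, x ∈ Arch_J P hP y ↔ ∀ K : ℕ, VP P ((x : Om) / y ^ K) := fun x => Iff.rfl
  have h2J : (3 : ZZ) ∈ Arch_J P hP y := by
    rw [hmem]
    intro K
    have h := (DI.VP.not_iff.1 (hcon K)).2.vp
    rw [inv_div] at h
    exact h
  have hprime : (Arch_J P hP y).IsPrime := by
    refine ⟨?_, ?_⟩
    · rw [Ideal.ne_top_iff_one, hmem]
      intro h
      have h1 := h 1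
      rw [pow_one] at h1
      have h3 := DI.MP.mul_left h1 hy
      rw [OneMemClass.coe_one, div_mul_cancel₀ _ hy0] at h3
      exact DI.MP.one_not h3
    · intro a b hab
      by_contra hn
      rw [not_or] at hn
      obtain ⟨ha, hb⟩ := hn
      rw [hmem] at ha hb hab
      push Not at ha hb
      obtain ⟨K, hK⟩ := ha
      obtain ⟨K', hK'⟩ := hb
      obtain ⟨h1, h3⟩ := DI.VP.not_iff.1 hK
      obtain ⟨h4, h5⟩ := DI.VP.not_iff.1 hK'
      have h6 := DI.MP.mul_left (hab (K + K')) (DI.MP.mul_left h3.vp h5)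
      have e : ((a * b : ZZ) : Om) / y ^ (K + K') *
          (((a : Om) / y ^ K)⁻¹ * ((b : Om) / y ^ K')⁻¹) = 1 := by
        have e1 : ((a * b : ZZ) : Om) / y ^ (K + K') = ((a : Om) / y ^ K) * ((b : Om) / y ^ K') := by
          rw [pow_add]
          push_cast
          rw [mul_div_mul_comm]
        rw [e1, ← mul_inv, mul_inv_cancel₀ (mul_ne_zero h1 h4)]
      rw [e] at h6
      exact DI.MP.one_not h6
  have hmax := Arch_max hprime h2J
  have hle : Arch_J P hP y ≤ P := by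
    intro x hx
    rw [hmem] at hx
    have h1 := hx 1
    rw [pow_one] at h1
    have h3 := DI.MP.mul_left h1 hy
    rw [div_mul_cancel₀ _ hy0] at h3
    exact (DI.MP.coe_iff x).1 h3
  have heq : Arch_J P hP y = P := hmax.eq_of_le hP.ne_top hle
  obtain ⟨a, b, ha, hb, hab⟩ := hy
  rw [← heq, hmem] at ha
  have h1 := ha 2
  have e : (a : Om) / y ^ 2 = (b : Om) / y := by
    rw [← hab]
    field_simp
  rw [e] at h1
  have h3 := DI.MP.mul_left h1 ⟨a, b, by
    have : a ∈ Arch_J P hP y := (hmem a).2 ha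
    rwa [heq] at this, hb, hab⟩
  rw [div_mul_cancel₀ _ hy0] at h3
  exact hb ((DI.MP.coe_iff b).1 h3)

private theorem Arch_pow {P : Ideal ZZ} (hP : P.IsPrime) (h2 : MP P 3) {y : Om} (hy : MP P y)
    (M : ℕ) : ∃ K : ℕ, ∀ n : ℕ, K ≤ n → TP P (3 ^ M) (y ^ n) := by
  have := hP
  obtain ⟨K, hK⟩ := Arch_half hP h2 hy
  refine ⟨K * M, fun n hn => ?_⟩
  obtain ⟨r, rfl⟩ := Nat.exists_eq_add_of_le hn
  refine ⟨(y ^ K / 3) ^ M * y ^ r, (DI.VP.pow hK M).mul (hy.vp.pow r), ?_⟩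
  rw [pow_add, pow_mul, div_pow, ← mul_assoc, mul_div_cancel₀]
  exact pow_ne_zero M three_ne_zero

private theorem Arch_root {P : Ideal ZZ} (hP : P.IsPrime) (h2 : (3 : ZZ) ∈ P) {a : ZZ}
    (ha : a ∉ P) : ∃ j : ℕ, 0 < j ∧ a ^ j - 1 ∈ P := by
  have hchar : CharP (ZZ ⧸ P) 3 := by
    have h1 : ((3 : ℕ) : ZZ ⧸ P) = 0 := by
      rw [← map_natCast (Ideal.Quotient.mk P), Ideal.Quotient.eq_zero_iff_mem]
      simpa using h2
    exact (CharP.charP_iff_prime_eq_zero Nat.prime_three).2 h1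
  let _ : Algebra (ZMod 3) (ZZ ⧸ P) := ZMod.algebra (ZZ ⧸ P) 3
  set x : ZZ ⧸ P := Ideal.Quotient.mk P a with hx
  have hint : IsIntegral ℤ x := by
    have h1 : IsIntegral ℤ a := Algebra.IsIntegral.isIntegral a
    exact h1.map (Ideal.Quotient.mkₐ ℤ P)
  have : IsScalarTower ℤ (ZMod 3) (ZZ ⧸ P) :=
    IsScalarTower.of_algebraMap_eq' (RingHom.ext_int _ _)
  have hint2 : IsIntegral (ZMod 3) x := hint.tower_top
  have hfg := hint2.fg_adjoin_singleton
  have : Module.Finite (ZMod 3) (Algebra.adjoin (ZMod 3) {x}) := Module.Finite.iff_fg.2 hfg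
  have hfin : Finite (Algebra.adjoin (ZMod 3) {x}) := Module.finite_of_finite (ZMod 3)
  have hxm : x ∈ Algebra.adjoin (ZMod 3) {x} := Algebra.self_mem_adjoin_singleton _ _
  obtain ⟨i, j, hij, he⟩ := Finite.exists_ne_map_eq_of_infinite
    (fun n : ℕ => (⟨x, hxm⟩ : Algebra.adjoin (ZMod 3) {x}) ^ n)
  have he' : x ^ i = x ^ j := congrArg (fun z : Algebra.adjoin (ZMod 3) {x} => (z : ZZ ⧸ P)) he
  have hx0 : x ≠ 0 := by
    intro h
    rw [hx, Ideal.Quotient.eq_zero_iff_mem] at h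
    exact ha h
  have key : ∀ i j : ℕ, i < j → x ^ i = x ^ j → ∃ j : ℕ, 0 < j ∧ a ^ j - 1 ∈ P := by
    intro i j hlt h
    refine ⟨j - i, Nat.sub_pos_of_lt hlt, ?_⟩
    rw [← Ideal.Quotient.eq_zero_iff_mem, map_sub, map_pow, map_one, ← hx, sub_eq_zero]
    have h1 : x ^ j = x ^ i * x ^ (j - i) := by
      rw [← pow_add]
      congr 1
      omega
    rw [h1] at h
    exact (mul_right_eq_self₀.1 h.symm).resolve_right (pow_ne_zero i hx0)
  rcases lt_or_gt_of_ne hij with h | h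
  · exact key i j h he'
  · exact key j i h he'.symm

private theorem Arch_unit {P : Ideal ZZ} (hP : P.IsPrime) (h2 : (3 : ZZ) ∈ P) {t : Om}
    (ht : UP P t) : ∃ j : ℕ, 0 < j ∧ MP P (t ^ j - 1) := by
  have := hP
  obtain ⟨⟨a, b, hb, hab⟩, hn⟩ := ht
  have ha : a ∉ P := fun ha => hn ⟨a, b, ha, hb, hab⟩
  obtain ⟨j, hj, h⟩ := Arch_root hP h2 ha
  obtain ⟨k, hk, h'⟩ := Arch_root hP h2 hb
  refine ⟨j * k, Nat.mul_pos hj hk, a ^ (j * k) - b ^ (j * k), b ^ (j * k), ?_, ?_, ?_⟩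
  · have h3 : a ^ (j * k) - 1 ∈ P := by
      rw [pow_mul]
      exact P.mem_of_dvd (by simpa using sub_dvd_pow_sub_pow (a ^ j) 1 k) h
    have h4 : b ^ (j * k) - 1 ∈ P := by
      rw [mul_comm, pow_mul]
      exact P.mem_of_dvd (by simpa using sub_dvd_pow_sub_pow (b ^ k) 1 j) h'
    have h5 := P.sub_mem h3 h4
    rwa [sub_sub_sub_cancel_right] at h5
  · exact fun h3 => hb (hP.mem_of_pow_mem _ h3)
  · push_cast
    rw [← hab]
    ring

private theorem Arch_step {P : Ideal ZZ} (hP : P.IsPrime) {c y : Om} (hc : VP P c)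
    (hy : TP P c y) (h2 : TP P c 3) (k : ℕ) : TP P (c ^ (k + 1)) ((1 + y) ^ 3 ^ k - 1) := by
  have := hP
  induction k with
  | zero =>
    obtain ⟨w, hw, rfl⟩ := hy
    exact ⟨w, hw, by ring⟩
  | succ k ih =>
    obtain ⟨w, hw, h⟩ := ih
    obtain ⟨u, hu, h2⟩ := h2
    have hz : VP P (c ^ (k + 1) * w) := DI.VP.mul (DI.VP.pow hc (k + 1)) hw
    refine ⟨w * (c ^ k * w * (c ^ (k + 1) * w) + u * (c ^ (k + 1) * w) + u), DI.VP.mul hw
      (DI.VP.add (DI.VP.add (DI.VP.mul (DI.VP.mul (DI.VP.pow hc k) hw) hz) (DI.VP.mul hu hz)) hu), ?_⟩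
    have e : (1 + y) ^ 3 ^ k = 1 + c ^ (k + 1) * w := by linear_combination h
    rw [pow_succ 3 k, pow_mul, e]
    have e2 : (1 + c ^ (k + 1) * w) ^ 3 - 1 =
        c ^ (k + 1) * w * (c ^ (k + 1) * w * (c ^ (k + 1) * w) + 3 * (c ^ (k + 1) * w) + 3) := by ring
    rw [e2, h2]
    ring

theorem tArch : S_Arch := by
  intro P hP h2
  have := hP
  have h2P := Arch_two hP h2
  refine ⟨Arch_one hP h2, fun y hy M => Arch_pow hP h2 hy M, fun t ht M => ?_⟩
  obtain ⟨j, hj, hm⟩ := Arch_unit hP h2P ht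
  obtain ⟨y, hy⟩ : ∃ y, y = t ^ j - 1 := ⟨_, rfl⟩
  rw [← hy] at hm
  have hc : ∃ c : Om, MP P c ∧ TP P c y ∧ TP P c 3 := by
    by_cases h : VP P (y / 3)
    · exact ⟨3, h2, (Arch_tp three_ne_zero).2 h, 1, DI.VP.one, by ring⟩
    · obtain ⟨h0, h1⟩ := DI.VP.not_iff.1 h
      have hy0 : y ≠ 0 := by
        rintro h3
        exact h0 (by rw [h3, zero_div])
      rw [inv_div] at h1
      exact ⟨y, hm, ⟨1, DI.VP.one, by ring⟩, (Arch_tp hy0).2 h1.vp⟩
  obtain ⟨c, hc, hcy, hc2⟩ := hc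
  obtain ⟨K, hK⟩ := Arch_pow hP h2 hc M
  refine ⟨j * 3 ^ K, by positivity, ?_⟩
  obtain ⟨w, hw, h⟩ := Arch_step hP hc.vp hcy hc2 K
  obtain ⟨u, hu, h'⟩ := hK (K + 1) (Nat.le_succ K)
  refine ⟨u * w, DI.VP.mul hu hw, ?_⟩
  have e : t ^ j = 1 + y := by rw [hy]; ring
  rw [pow_mul, e, h, h']
  ring

end Pool.Agent.DT.GL
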