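import Pool.Agent.Lib.DT.GL.Spec
import Pool.Agent.Lib.DT.H3.Zt
import Pool.Agent.Lib.DT.T.Ka

set_option autoImplicit false

/-! # Abstract tower, p = 3, module Kap: the Kummer character -/

open scoped Pointwise

noncomputable section

namespace Pool.Agent.DT.GL

open Pool.Agent.MuZ Pool.Agent.FW
open Pool.Agent.DI (VP MP UP TP)
open Pool.Agent.DI.GL (Fx StP mem_of_Fx Fx.mul Fx.inv Fx.one)

private theorem Kap_kp (w : Om) (d : Gal(Om/ℚ)) (hw : w ≠ 0) (hd : d w = w)
    (hz : d (zet 3) = zet 3) : kap w d = kp 3 (zet 3) w d := (H3.tZt pKa).2 w d hw hd hz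

private theorem Kap_root (w : Om) : ∃ r : Om, r ^ 3 = w :=
  IsAlgClosed.exists_pow_nat_eq w (by norm_num)

private theorem Kap_iff (w r : Om) (d : Gal(Om/ℚ)) (hw : w ≠ 0) (hr : r ^ 3 = w) (hd : d w = w)
    (hz : d (zet 3) = zet 3) (i : ℕ) : d r = zet 3 ^ i * r ↔ kap w d = i := by
  have : Fact (Nat.Prime 3) := ⟨Nat.prime_three⟩
  rw [Kap_kp w d hw hd hz]
  exact ((pKa 3 (zet 3) zet3_prim).1 w r d hw hr hd hz).1 i

private theorem Kap_val (w r : Om) (d : Gal(Om/ℚ)) (hw : w ≠ 0) (hr : r ^ 3 = w) (hd : d w = w)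
    (hz : d (zet 3) = zet 3) : d r = zet 3 ^ (kap w d).val * r := by
  refine (Kap_iff w r d hw hr hd hz _).2 ?_
  exact (ZMod.natCast_zmod_val _).symm

private theorem Kap_zero (w r : Om) (d : Gal(Om/ℚ)) (hw : w ≠ 0) (hr : r ^ 3 = w) (hd : d w = w)
    (hz : d (zet 3) = zet 3) : kap w d = 0 ↔ d r = r := by
  have h := Kap_iff w r d hw hr hd hz 0
  rw [pow_zero, one_mul, Nat.cast_zero] at h
  exact h.symm

private theorem Kap_mul (w w' : Om) (d : Gal(Om/ℚ)) (hw : w ≠ 0) (hw' : w' ≠ 0) (hd : d w = w)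
    (hd' : d w' = w') (hz : d (zet 3) = zet 3) : kap (w * w') d = kap w d + kap w' d := by
  obtain ⟨r, hr⟩ := Kap_root w
  obtain ⟨r', hr'⟩ := Kap_root w'
  have h1 := Kap_val w r d hw hr hd hz
  have h2 := Kap_val w' r' d hw' hr' hd' hz
  have h3 : d (r * r') = zet 3 ^ ((kap w d).val + (kap w' d).val) * (r * r') := by
    rw [map_mul, h1, h2, pow_add]
    ring
  have h4 := (Kap_iff (w * w') (r * r') d (mul_ne_zero hw hw') (by rw [mul_pow, hr, hr'])
    (by rw [map_mul, hd, hd']) hz _).1 h3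
  rw [h4, Nat.cast_add, ZMod.natCast_zmod_val, ZMod.natCast_zmod_val]

private theorem Kap_one (d : Gal(Om/ℚ)) (hz : d (zet 3) = zet 3) : kap 1 d = 0 :=
  (Kap_zero 1 1 d one_ne_zero (one_pow 3) (map_one d) hz).2 (map_one d)

private theorem Kap_pow (w : Om) (d : Gal(Om/ℚ)) (hw : w ≠ 0) (hd : d w = w)
    (hz : d (zet 3) = zet 3) (n : ℕ) : kap (w ^ n) d = (n : ZMod 3) * kap w d := by
  induction n with
  | zero =>
    rw [pow_zero, Nat.cast_zero, zero_mul]
    exact Kap_one d hz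
  | succ n ih =>
    rw [pow_succ, Kap_mul _ _ d (pow_ne_zero n hw) hw (by rw [map_pow, hd]) hd hz, ih]
    push_cast
    ring

/-- The Kummer character. -/
theorem tKap : S_Kap := by
  classical
  refine ⟨Kap_zero, Kap_mul, ?_, ?_⟩
  · intro w d d' hw hd hd' hz hz'
    have : Fact (Nat.Prime 3) := ⟨Nat.prime_three⟩
    rw [Kap_kp w d hw hd hz, Kap_kp w d' hw hd' hz',
      Kap_kp w (d * d') hw (by rw [AlgEquiv.mul_apply, hd', hd])
        (by rw [AlgEquiv.mul_apply, hz', hz])]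
    exact (pKa 3 (zet 3) zet3_prim).2.1 w d d' hw hd hd' hz hz'
  · intro ι s u c d hz
    induction s using Finset.induction_on with
    | empty =>
      intro _
      rw [Finset.prod_empty, Finset.sum_empty]
      exact Kap_one d hz
    | insert a s ha ih =>
      intro h
      have h1 := h a (Finset.mem_insert_self a s)
      have h2 : ∀ v ∈ s, u v ≠ 0 ∧ d (u v) = u v := fun v hv => h v (Finset.mem_insert_of_mem hv)
      rw [Finset.prod_insert ha, Finset.sum_insert ha, ← ih h2,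
        ← Kap_pow (u a) d h1.1 h1.2 hz (c a)]
      refine Kap_mul _ _ d (pow_ne_zero _ h1.1) ?_ ?_ ?_ hz
      · exact Finset.prod_ne_zero_iff.2 fun v hv => pow_ne_zero _ (h2 v hv).1
      · rw [map_pow, h1.2]
      · rw [map_prod]
        exact Finset.prod_congr rfl fun v hv => by rw [map_pow, (h2 v hv).2]

end Pool.Agent.DT.GL
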