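import Pool.Agent.Lib.DT.GL.Spec

/-!
# Theorem DT, part GL: powers of `1 + 3 ^ N` modulo `3 ^ m`
-/

set_option autoImplicit false

open scoped Pointwise

noncomputable section

namespace Pool.Agent.DT.GL

open Pool.Agent.MuZ Pool.Agent.FW
open Pool.Agent.DI (VP MP UP TP)
open Pool.Agent.DI.GL (Fx StP mem_of_Fx Fx.mul Fx.inv Fx.one)

private lemma Pw_pow {N : ℕ} (hN : 1 ≤ N) (k : ℕ) :
    ∃ b : ℤ, ((1 : ℤ) + 3 ^ N) ^ 3 ^ k = 1 + 3 ^ (N + k) * (1 + 3 * b) := by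
  induction k with
  | zero => exact ⟨0, by simp⟩
  | succ k ih =>
    obtain ⟨b, hb⟩ := ih
    obtain ⟨n, hn⟩ : ∃ n : ℕ, N + k = n + 1 := ⟨N + k - 1, by omega⟩
    refine ⟨b + 3 ^ n * (1 + 3 * b) ^ 2 + (3 ^ n) ^ 2 * (1 + 3 * b) ^ 3, ?_⟩
    have e1 : N + (k + 1) = n + 2 := by omega
    rw [pow_succ, pow_mul, hb, hn, e1]
    ring

private lemma Pw_main {N : ℕ} (hN : 1 ≤ N) {c : ℤ} (hc : (3 : ℤ) ^ N ∣ c - 1) (j : ℕ) :
    ∃ t : ℕ, (3 : ℤ) ^ (N + j) ∣ c - (1 + 3 ^ N) ^ t := by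
  induction j with
  | zero => exact ⟨0, by simpa using hc⟩
  | succ j ih =>
    obtain ⟨t, q, hq⟩ := ih
    obtain ⟨a, ha⟩ : ∃ a : ℤ, ((1 : ℤ) + 3 ^ N) ^ t = 1 + 3 * a := by
      have h1 : (3 : ℤ) ∣ (1 + 3 ^ N) - 1 := by
        rw [add_sub_cancel_left]
        exact dvd_pow_self _ (by omega)
      have h2 : ((1 : ℤ) + 3 ^ N) - 1 ∣ (1 + 3 ^ N) ^ t - 1 := by
        have := sub_dvd_pow_sub_pow ((1 : ℤ) + 3 ^ N) 1 t
        rwa [one_pow] at this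
      obtain ⟨a, ha⟩ := h1.trans h2
      exact ⟨a, by linear_combination ha⟩
    obtain ⟨b, hb⟩ := Pw_pow hN j
    obtain ⟨n, hn⟩ : ∃ n : ℕ, N + j = n + 1 := ⟨N + j - 1, by omega⟩
    have e1 : N + (j + 1) = n + 2 := by omega
    rw [hn] at hq hb
    rw [ha] at hq
    obtain ⟨r, hr⟩ : ∃ r : ℤ, q = 3 * r ∨ q = 3 * r + 1 ∨ q = 3 * r + 2 := ⟨q / 3, by omega⟩
    rcases hr with hr | hr | hr
    · refine ⟨t, r, ?_⟩
      rw [ha, e1, hq, hr]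
      ring
    · refine ⟨t + 3 ^ j, r - a - b - 3 * a * b, ?_⟩
      rw [pow_add, hb, ha, e1]
      rw [hr] at hq
      linear_combination hq
    · refine ⟨t + 2 * 3 ^ j, r - 2 * (a + b + 3 * a * b) -
        (1 + 3 * a) * 3 ^ n * (1 + 3 * b) ^ 2, ?_⟩
      rw [pow_add, mul_comm 2 (3 ^ j), pow_mul, hb, ha, e1]
      rw [hr] at hq
      linear_combination hq

theorem tPw : S_Pw := by
  intro N hN m c hc
  have h1 : (3 : ℤ) ^ N ∣ (c : ℤ) - 1 := by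
    have h2 := (Nat.modEq_iff_dvd.1 hc.symm)
    simpa using h2
  obtain ⟨t, ht⟩ := Pw_main hN h1 m
  refine ⟨t, (Nat.modEq_iff_dvd.2 ?_).symm⟩
  push_cast
  exact (pow_dvd_pow 3 (Nat.le_add_left m N)).trans ht

end Pool.Agent.DT.GL
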