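import Pool.Agent.Lib.DT.GL.Spec

set_option autoImplicit false

/-! # Abstract tower, p = 3, module Lin: a basis of residues -/

open scoped Pointwise

noncomputable section

namespace Pool.Agent.DT.GL

open Pool.Agent.MuZ Pool.Agent.FW
open Pool.Agent.DI (VP MP UP TP)
open Pool.Agent.DI.GL (Fx StP mem_of_Fx Fx.mul Fx.inv Fx.one)

/-- A basis of residues. -/
theorem tLin : S_Lin := by
  intro P hP h2 ι χ hχ D
  classical
  have := hP
  have hnat : ∀ (n : ℕ) (b : Fin n → ι) (e : Fin n → ℕ), VP P (∑ i, (e i : Om) * χ (b i)) :=
    fun n b e => DI.VP.sum _ _ fun i _ => (DI.VP.nat (e i)).mul (hχ (b i))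
  induction D using Finset.induction_on with
  | empty =>
    refine ⟨0, Fin.elim0, Fin.elim0, fun e _ i => i.elim0, fun v hv => ?_⟩
    exact absurd hv (Finset.notMem_empty v)
  | insert v D hv ih =>
    obtain ⟨n, b, c, hb, hc⟩ := ih
    by_cases h : ∃ c0 : Fin n → ℕ, MP P (χ v - ∑ i, (c0 i : Om) * χ (b i))
    · obtain ⟨c0, hc0⟩ := h
      refine ⟨n, b, fun i w => if w = v then c0 i else c i w, hb, fun w hw => ?_⟩
      by_cases hwv : w = v
      · subst hwv
        simp only [if_true]
        exact hc0
      · simp only [if_neg hwv]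
        exact hc w (Finset.mem_of_mem_insert_of_ne hw hwv)
    · refine ⟨n + 1, Fin.cons v b, Fin.cons (fun w => if w = v then 1 else 0)
        fun i w => if w = v then 0 else c i w, ?_, fun w hw => ?_⟩
      · intro e he
        rw [Fin.sum_univ_succ] at he
        simp only [Fin.cons_zero, Fin.cons_succ] at he
        obtain ⟨k, hk⟩ | ⟨k, hk⟩ | ⟨k, hk⟩ : (∃ k, e 0 = 3 * k) ∨ (∃ k, e 0 = 3 * k + 1) ∨
            ∃ k, e 0 = 3 * k + 2 := by
          rcases (by omega : e 0 % 3 = 0 ∨ e 0 % 3 = 1 ∨ e 0 % 3 = 2) with h3 | h3 | h3
          · exact Or.inl ⟨e 0 / 3, by omega⟩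
          · exact Or.inr (Or.inl ⟨e 0 / 3, by omega⟩)
          · exact Or.inr (Or.inr ⟨e 0 / 3, by omega⟩)
        · have h3 : MP P ((e 0 : Om) * χ v) := by
            have e1 : (e 0 : Om) * χ v = 3 * ((k : Om) * χ v) := by
              rw [hk]
              push_cast
              ring
            rw [e1]
            exact DI.MP.mul_right h2 ((DI.VP.nat k).mul (hχ v))
          have h4 := he.sub h3
          rw [add_sub_cancel_left] at h4
          have h5 := hb (fun i => e i.succ) h4
          intro i
          refine Fin.cases ?_ (fun i => ?_) i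
          · exact ⟨k, hk⟩
          · exact h5 i
        · exfalso
          apply h
          refine ⟨fun i => 2 * e i.succ, ?_⟩
          have e0 : ∑ i : Fin n, ((2 * e i.succ : ℕ) : Om) * χ (b i) =
              2 * ∑ i : Fin n, (e i.succ : Om) * χ (b i) := by
            rw [Finset.mul_sum]
            refine Finset.sum_congr rfl fun i _ => ?_
            push_cast
            ring
          have e1 : χ v - ∑ i : Fin n, ((2 * e i.succ : ℕ) : Om) * χ (b i) =
              ((e 0 : Om) * χ v + ∑ i : Fin n, (e i.succ : Om) * χ (b i)) -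
              3 * ((k : Om) * χ v + ∑ i : Fin n, (e i.succ : Om) * χ (b i)) := by
            rw [e0, hk]
            push_cast
            ring
          rw [e1]
          exact he.sub (DI.MP.mul_right h2 (((DI.VP.nat k).mul (hχ v)).add
            (hnat n b fun i => e i.succ)))
        · exfalso
          apply h
          refine ⟨fun i => e i.succ, ?_⟩
          have e1 : χ v - ∑ i : Fin n, (e i.succ : Om) * χ (b i) =
              ((e 0 : Om) * χ v + ∑ i : Fin n, (e i.succ : Om) * χ (b i)) +
              ((e 0 : Om) * χ v + ∑ i : Fin n, (e i.succ : Om) * χ (b i)) -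
              3 * (((2 * k + 1 : ℕ) : Om) * χ v + ∑ i : Fin n, (e i.succ : Om) * χ (b i)) := by
            rw [hk]
            push_cast
            ring
          rw [e1]
          exact (he.add he).sub (DI.MP.mul_right h2 (((DI.VP.nat _).mul (hχ v)).add
            (hnat n b fun i => e i.succ)))
      · rw [Fin.sum_univ_succ]
        simp only [Fin.cons_zero, Fin.cons_succ]
        by_cases hwv : w = v
        · subst hwv
          simp only [if_true, Nat.cast_one, one_mul, Nat.cast_zero, zero_mul,
            Finset.sum_const_zero, add_zero, sub_self]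
          exact DI.MP.zero
        · simp only [if_neg hwv, Nat.cast_zero, zero_mul, zero_add]
          exact hc w (Finset.mem_of_mem_insert_of_ne hw hwv)

end Pool.Agent.DT.GL
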