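import Pool.Agent.Lib.DT.GL.Spec

/-!
# Theorem DT, part GL, module RR (helper87): the ring generated by roots of unity of order prime to `3`

Port of `DK/GL/RR.lean`.
-/

set_option autoImplicit false

open scoped Pointwise

noncomputable section

namespace Pool.Agent.DT.GL

open Pool.Agent.MuZ Pool.Agent.FW
open Pool.Agent.DI (VP MP UP TP)
open Pool.Agent.DI.GL (Fx StP mem_of_Fx Fx.mul Fx.inv Fx.one)

private theorem RR_add (R : Subalgebra ℤ Om) (t : ℕ) : ∀ x ∈ R, ∀ x' ∈ R, ∃ w ∈ R,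
    (x + x') ^ 3 ^ t = x ^ 3 ^ t + x' ^ 3 ^ t + 3 * w := by
  induction t with
  | zero =>
    intro x _ x' _
    exact ⟨0, R.zero_mem, by ring⟩
  | succ t ih =>
    intro x hx x' hx'
    obtain ⟨w, hw, h⟩ := ih x hx x' hx'
    obtain ⟨a, ha, hae⟩ : ∃ a ∈ R, a = x ^ 3 ^ t := ⟨_, R.pow_mem hx _, rfl⟩
    obtain ⟨b, hb, hbe⟩ : ∃ b ∈ R, b = x' ^ 3 ^ t := ⟨_, R.pow_mem hx' _, rfl⟩
    have h3 : (3 : Om) ∈ R := by
      have h3 := R.algebraMap_mem (3 : ℤ)
      rwa [map_ofNat] at h3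
    refine ⟨a ^ 2 * b + a * b ^ 2 + 3 * ((a + b) ^ 2 * w) + 3 * 3 * ((a + b) * w ^ 2) + 3 * 3 * w ^ 3, ?_, ?_⟩
    · have hab := R.add_mem ha hb
      exact R.add_mem (R.add_mem (R.add_mem (R.add_mem (R.mul_mem (R.pow_mem ha 2) hb)
        (R.mul_mem ha (R.pow_mem hb 2))) (R.mul_mem h3 (R.mul_mem (R.pow_mem hab 2) hw)))
        (R.mul_mem (R.mul_mem h3 h3) (R.mul_mem hab (R.pow_mem hw 2))))
        (R.mul_mem (R.mul_mem h3 h3) (R.pow_mem hw 3))
    · rw [pow_succ 3 t, pow_mul, pow_mul, pow_mul, h, ← hae, ← hbe]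
      ring

/-- The ring generated by roots of unity of order prime to `3`. -/
theorem tRR : S_RR := by
  intro hArch ι χ m hm hχ P hP h3 x hx hxP
  have := hP
  have hm0 : 0 < m := by
    rcases Nat.eq_zero_or_pos m with h | h
    · rw [h] at hm
      norm_num at hm
    · exact h
  obtain ⟨R, hR⟩ : ∃ R : Subalgebra ℤ Om, R = Algebra.adjoin ℤ (Set.range χ) := ⟨_, rfl⟩
  obtain ⟨t, ht⟩ : ∃ t, t = Nat.totient m := ⟨_, rfl⟩
  have ht0 : 0 < t := by rw [ht]; exact Nat.totient_pos.2 hm0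
  have hq2 : 3 ≤ 3 ^ t := by
    calc 3 = 3 ^ 1 := rfl
      _ ≤ 3 ^ t := Nat.pow_le_pow_right (by norm_num) ht0
  have hq0 : 3 ^ t ≠ 0 := by omega
  have h3R : (3 : Om) ∈ R := by
    have h3 := R.algebraMap_mem (3 : ℤ)
    rwa [map_ofNat] at h3
  have hgen : ∀ v, χ v ^ 3 ^ t = χ v := by
    intro v
    rcases hχ v with h | h
    · rw [h, zero_pow hq0]
    · have h3 : 3 ^ t ≡ 1 [MOD m] := by
        rw [ht]
        exact Nat.ModEq.pow_totient hm.symm
      have h4 : m ∣ 3 ^ t - 1 := (Nat.modEq_iff_dvd' (by omega)).1 h3.symm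
      obtain ⟨k, hk⟩ := h4
      have h5 : 3 ^ t = m * k + 1 := by omega
      rw [h5, pow_succ, pow_mul, h, one_pow, one_mul]
  have hint : ∀ (n : ℤ) (t : ℕ), (3 : ℤ) ∣ n ^ 3 ^ t - n := by
    intro n t
    induction t with
    | zero => simp
    | succ t ih =>
      have h1 : (3 : ℤ) ∣ (n ^ 3 ^ t) ^ 3 - n ^ 3 ^ t := by
        have : ∀ a : ℤ, (3 : ℤ) ∣ a ^ 3 - a := by
          intro a
          have e : a ^ 3 - a = (a - 1) * a * (a + 1) := by ring
          rw [e]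
          have h2 : (3 : ℤ) ∣ a ∨ (3 : ℤ) ∣ a - 1 ∨ (3 : ℤ) ∣ a + 1 := by omega
          rcases h2 with h2 | h2 | h2
          · exact (h2.mul_left _).mul_right _
          · exact (h2.mul_right _).mul_right _
          · exact h2.mul_left _
        exact this _
      rw [pow_succ 3 t, pow_mul]
      have := dvd_add h1 ih
      rwa [sub_add_sub_cancel] at this
  have hA : ∀ x ∈ R, ∃ y ∈ R, x ^ 3 ^ t = x + 3 * y := by
    intro x hx
    rw [hR] at hx
    refine Algebra.adjoin_induction (p := fun x _ => ∃ y ∈ R, x ^ 3 ^ t = x + 3 * y)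
      ?_ ?_ ?_ ?_ hx
    · rintro _ ⟨v, rfl⟩
      exact ⟨0, R.zero_mem, by rw [hgen, mul_zero, add_zero]⟩
    · intro n
      obtain ⟨k, hk⟩ := hint n t
      refine ⟨(k : Om), ?_, ?_⟩
      · have h4 := R.algebraMap_mem k
        rwa [eq_intCast (algebraMap ℤ Om) k] at h4
      · have h4 : n ^ 3 ^ t = n + 3 * k := by linarith
        rw [eq_intCast (algebraMap ℤ Om) n, ← Int.cast_pow, h4]
        push_cast
        ring
    · rintro a b ha hb ⟨y, hy, h3⟩ ⟨y', hy', h4⟩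
      rw [← hR] at ha hb
      obtain ⟨w, hw, h5⟩ := RR_add R t a ha b hb
      refine ⟨y + y' + w, R.add_mem (R.add_mem hy hy') hw, ?_⟩
      rw [h5, h3, h4]
      ring
    · rintro a b ha hb ⟨y, hy, h3⟩ ⟨y', hy', h4⟩
      rw [← hR] at ha hb
      refine ⟨a * y' + y * b + 3 * (y * y'), R.add_mem (R.add_mem (R.mul_mem ha hy')
        (R.mul_mem hy hb)) (R.mul_mem h3R (R.mul_mem hy hy')), ?_⟩
      rw [mul_pow, h3, h4]
      ring
  have hB : ∀ k : ℕ, ∀ x ∈ R, ∃ y ∈ R, x ^ (3 ^ t) ^ k = x + 3 * y := by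
    intro k
    induction k with
    | zero =>
      intro x _
      exact ⟨0, R.zero_mem, by rw [pow_zero, pow_one, mul_zero, add_zero]⟩
    | succ k ih =>
      intro x hx
      obtain ⟨y, hy, h3⟩ := ih x hx
      obtain ⟨y', hy', h4⟩ := hA (x ^ (3 ^ t) ^ k) (R.pow_mem hx _)
      refine ⟨y + y', R.add_mem hy hy', ?_⟩
      rw [pow_succ (3 ^ t) k, pow_mul, h4, h3]
      ring
  have hV : ∀ x ∈ R, VP P x := by
    intro x hx
    rw [hR] at hx
    refine Algebra.adjoin_induction (p := fun x _ => VP P x) ?_ ?_ ?_ ?_ hx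
    · rintro _ ⟨v, rfl⟩
      rcases hχ v with h | h
      · rw [h]
        exact DI.VP.zero
      · apply DI.VP.integral
        apply IsIntegral.of_pow hm0
        rw [h]
        exact isIntegral_one
    · intro n
      rw [eq_intCast (algebraMap ℤ Om) n]
      exact DI.VP.int n
    · intro a b _ _ ha hb
      exact DI.VP.add ha hb
    · intro a b _ _ ha hb
      exact DI.VP.mul ha hb
  obtain ⟨-, hArch2, -⟩ := hArch P hP h3
  obtain ⟨K, hK⟩ := hArch2 x hxP 1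
  have hKq : K ≤ (3 ^ t) ^ K := (Nat.lt_pow_self (by omega)).le
  obtain ⟨y0, hy0, h5⟩ := hK _ hKq
  obtain ⟨y, hy, h4⟩ := hB K x (by rw [hR]; exact hx)
  refine ⟨y0 - y, DI.VP.sub hy0 (hV y hy), ?_⟩
  rw [h5] at h4
  linear_combination -h4

end Pool.Agent.DT.GL
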