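import Pool.Agent.Lib.DT.GL.Spec

/-!
# Theorem DT, part GL, module X0: the numbers `1 - ζ`
-/

set_option autoImplicit false

open scoped Pointwise

noncomputable section

namespace Pool.Agent.DT.GL

open Pool.Agent.MuZ Pool.Agent.FW
open Pool.Agent.DI (VP MP UP TP)
open Pool.Agent.DI.GL (Fx StP mem_of_Fx Fx.mul Fx.inv Fx.one)

/-- `(1 - z ^ j) / (1 - z)` is in `V_P` for `z ≠ 1` integral. -/
private theorem X0_geom {P : Ideal ZZ} [hP : P.IsPrime] {z : Om} {n : ℕ} (hn : 0 < n)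
    (hz : z ^ n = 1) (h1 : 1 - z ≠ 0) (j : ℕ) : VP P ((1 - z ^ j) / (1 - z)) := by
  have hg : (1 - z ^ j) / (1 - z) = ∑ k ∈ Finset.range j, z ^ k := by
    rw [div_eq_iff h1]
    have := geom_sum_mul z j
    linear_combination this
  have hzi : IsIntegral ℤ z := by
    refine IsIntegral.of_pow hn ?_
    rw [hz]
    exact isIntegral_one
  rw [hg]
  exact DI.VP.sum _ _ fun k _ => DI.VP.pow (DI.VP.integral hzi) k

private theorem X0_ne {z : Om} {N : ℕ} (hN : 1 ≤ N) (h : IsPrimitiveRoot z (3 ^ N)) :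
    1 - z ≠ 0 := by
  have h1 : z ≠ 1 := h.ne_one (Nat.one_lt_pow (by omega) (by norm_num))
  exact fun h0 => h1 (sub_eq_zero.1 h0).symm

private theorem X0_c {P : Ideal ZZ} [hP : P.IsPrime] {N : ℕ} (hN : 1 ≤ N) {z : Om}
    (h : IsPrimitiveRoot z (3 ^ N)) {i : ℕ} (hi : i.Coprime 3) :
    UP P ((1 - z ^ i) / (1 - z)) := by
  have hcop : i.Coprime (3 ^ N) := Nat.Coprime.pow_right N hi
  have hzi : IsPrimitiveRoot (z ^ i) (3 ^ N) := h.pow_of_coprime i hcop
  have h0 := X0_ne hN h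
  have h0i := X0_ne hN hzi
  have hpos : 0 < 3 ^ N := by positivity
  rw [DI.UP.iff]
  refine ⟨div_ne_zero h0i h0, X0_geom hpos h.pow_eq_one h0 i, ?_⟩
  obtain ⟨j, _, hj⟩ := Nat.exists_mul_mod_eq_one_of_coprime hcop
    (Nat.one_lt_pow (by omega) (by norm_num))
  have hij : (z ^ i) ^ j = z := by
    rw [← pow_mul]
    have h2 : z ^ (i * j) = z ^ (i * j % 3 ^ N) := by
      conv_lhs => rw [← Nat.mod_add_div (i * j) (3 ^ N)]
      rw [pow_add, pow_mul, h.pow_eq_one, one_pow, mul_one]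
    rw [h2, hj, pow_one]
  have h3 := X0_geom (P := P) hpos hzi.pow_eq_one h0i j
  rw [hij] at h3
  rw [inv_div]
  exact h3

/-- A cube root of a primitive root of unity of order `3 ^ N` is primitive of order `3 ^ (N + 1)`. -/
private theorem X0_prim {N : ℕ} (hN : 1 ≤ N) {z : Om} (h : IsPrimitiveRoot (z ^ 3) (3 ^ N)) :
    IsPrimitiveRoot z (3 ^ (N + 1)) := by
  have h1 : z ^ 3 ^ (N + 1) = 1 := by
    rw [pow_succ, mul_comm, pow_mul]
    exact h.pow_eq_one
  refine IsPrimitiveRoot.iff_orderOf.2 ?_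
  refine orderOf_eq_prime_pow (p := 3) (n := N) ?_ h1
  intro h2
  have h3 : (z ^ 3) ^ 3 ^ (N - 1) = 1 := by
    rw [← pow_mul, ← pow_succ', Nat.sub_add_cancel hN]
    exact h2
  have h4 := Nat.le_of_dvd (by positivity) (h.dvd_of_pow_eq_one _ h3)
  have h5 : 3 ^ (N - 1) < 3 ^ N := Nat.pow_lt_pow_right (by norm_num) (by omega)
  omega

private theorem X0_d {P : Ideal ZZ} [hP : P.IsPrime] {N : ℕ} (hN : 1 ≤ N) {z : Om}
    (h : IsPrimitiveRoot (z ^ 3) (3 ^ N)) : UP P ((1 - z) ^ 3 / (1 - z ^ 3)) := by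
  have hz := X0_prim hN h
  have h0 := X0_ne (by omega) hz
  have h30 := X0_ne hN h
  set w : Om := z ^ 3 ^ N with hw
  have hwp : IsPrimitiveRoot w 3 := by
    refine hz.pow (by positivity) ?_
    rw [pow_succ]
  have hw1 : w ≠ 1 := hwp.ne_one (by norm_num)
  have hw3 : w ^ 3 = 1 := hwp.pow_eq_one
  have hs : w ^ 2 = -1 - w := by
    have h1 : (w - 1) * (w ^ 2 + w + 1) = 0 := by
      linear_combination hw3
    rcases mul_eq_zero.1 h1 with h | h
    · exact absurd (sub_eq_zero.1 h) hw1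
    · linear_combination h
  have h3N : 3 ∣ 3 ^ N := dvd_pow_self 3 (by omega)
  have hc1 : (1 + 3 ^ N).Coprime 3 := by
    obtain ⟨k, hk⟩ := h3N
    rw [hk]
    rw [Nat.coprime_comm, Nat.Prime.coprime_iff_not_dvd Nat.prime_three]
    omega
  have hc2 : (1 + 2 * 3 ^ N).Coprime 3 := by
    obtain ⟨k, hk⟩ := h3N
    rw [hk]
    rw [Nat.coprime_comm, Nat.Prime.coprime_iff_not_dvd Nat.prime_three]
    omega
  have e1 : z ^ (1 + 3 ^ N) = z * w := by rw [pow_add, pow_one]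
  have e2 : z ^ (1 + 2 * 3 ^ N) = z * w ^ 2 := by
    rw [pow_add, pow_one, mul_comm 2, pow_mul]
  have u1 := X0_c (P := P) (N := N + 1) (by omega) hz hc1
  have u2 := X0_c (P := P) (N := N + 1) (by omega) hz hc2
  rw [e1] at u1
  rw [e2] at u2
  have hfac : 1 - z ^ 3 = (1 - z) * (1 - z * w) * (1 - z * w ^ 2) := by
    linear_combination (z * (1 - z)) * hs - (1 - z) * z ^ 2 * hw3
  have u3 := DI.UP.inv (DI.UP.mul u1 u2)
  have e3 : (1 - z) ^ 3 / (1 - z ^ 3)
      = ((1 - z * w) / (1 - z) * ((1 - z * w ^ 2) / (1 - z)))⁻¹ := by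
    rw [hfac]
    rw [hfac] at h30
    have h31 := left_ne_zero_of_mul h30
    have h32 := right_ne_zero_of_mul h30
    have h33 := right_ne_zero_of_mul h31
    field_simp
  rw [e3]
  exact u3

private theorem X0_e {P : Ideal ZZ} [hP : P.IsPrime] (M : ℕ) : ∀ z : Om,
    IsPrimitiveRoot z (3 ^ (M + 1)) → UP P ((1 - z) ^ 3 ^ M / lam) := by
  induction M with
  | zero =>
    intro z hz
    rw [zero_add, pow_one] at hz
    obtain ⟨i, _, hi⟩ := zet3_prim.eq_pow_of_pow_eq_one hz.pow_eq_one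
    have hco : i.Coprime 3 := by
      rw [← hi] at hz
      exact (zet3_prim.pow_iff_coprime (by norm_num) i).1 hz
    have h3 : IsPrimitiveRoot (zet 3) (3 ^ 1) := by
      rw [pow_one]
      exact zet3_prim
    have := X0_c (P := P) (N := 1) le_rfl h3 hco
    rw [hi] at this
    rw [pow_zero, pow_one]
    exact this
  | succ M ih =>
    intro z hz
    have hz3 : IsPrimitiveRoot (z ^ 3) (3 ^ (M + 1)) := by
      refine hz.pow (by positivity) ?_
      rw [pow_succ]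
      ring
    have h30 := X0_ne (by omega) hz3
    have u1 := ih _ hz3
    have u2 := DI.UP.pow (X0_d (P := P) (N := M + 1) (by omega) hz3) (3 ^ M)
    have e : (1 - z) ^ 3 ^ (M + 1) / lam
        = ((1 - z) ^ 3 / (1 - z ^ 3)) ^ 3 ^ M * ((1 - z ^ 3) ^ 3 ^ M / lam) := by
      have hl := lam_ne
      rw [div_pow, ← pow_mul, ← pow_succ']
      have h31 : (1 - z ^ 3) ^ 3 ^ M ≠ 0 := pow_ne_zero _ h30
      field_simp
    rw [e]
    exact DI.UP.mul u2 u1

theorem tX0 : S_X0 := by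
  intro P hP h3 N hN ζ hζ
  have := hP
  have he : UP P ((1 - ζ) ^ 3 ^ (N - 1) / lam) := by
    refine X0_e (N - 1) ζ ?_
    rw [Nat.sub_add_cancel hN]
    exact hζ
  refine ⟨X0_ne hN hζ, ?_, fun i hi => X0_c hN hζ hi, ?_, he⟩
  · refine DI.MP.of_pow (n := 3 ^ (N - 1)) ?_
    have h1 := DI.MP.mul_left he.1 (lam_mp h3)
    rwa [div_mul_cancel₀ _ lam_ne] at h1
  · intro z hz
    subst hz
    exact X0_d hN hζ

end Pool.Agent.DT.GL
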