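import Pool.Agent.Lib.DI.Val
import Pool.Agent.Lib.DI.B.A12
import Pool.Agent.Lib.DT.Defs

/-!
# Part GL of Theorem DT: basic facts on `TP` and on `zet 3` (helper66)
-/

set_option autoImplicit false

open scoped Pointwise

noncomputable section

namespace Pool.Agent.DT.GL

open Pool.Agent.MuZ
open Pool.Agent.DI (VP MP UP TP)

variable {P : Ideal ZZ}

theorem tp_zero [P.IsPrime] (t : Om) : TP P t 0 := ⟨0, DI.VP.zero, by ring⟩

theorem tp_self [P.IsPrime] (t : Om) : TP P t t := ⟨1, DI.VP.one, by ring⟩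

theorem tp_add [P.IsPrime] {t x y : Om} (hx : TP P t x) (hy : TP P t y) : TP P t (x + y) := by
  obtain ⟨a, ha, rfl⟩ := hx
  obtain ⟨b, hb, rfl⟩ := hy
  exact ⟨a + b, DI.VP.add ha hb, by ring⟩

theorem tp_neg {t x : Om} (hx : TP P t x) : TP P t (-x) := by
  obtain ⟨a, ha, rfl⟩ := hx
  exact ⟨-a, DI.VP.neg ha, by ring⟩

theorem tp_sub [P.IsPrime] {t x y : Om} (hx : TP P t x) (hy : TP P t y) : TP P t (x - y) := by
  rw [sub_eq_add_neg]
  exact tp_add hx (tp_neg hy)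

theorem tp_mul [P.IsPrime] {t x y : Om} (hx : VP P x) (hy : TP P t y) : TP P t (x * y) := by
  obtain ⟨b, hb, rfl⟩ := hy
  exact ⟨x * b, DI.VP.mul hx hb, by ring⟩

theorem tp_mul_right [P.IsPrime] {t x y : Om} (hx : TP P t x) (hy : VP P y) : TP P t (x * y) := by
  rw [mul_comm]
  exact tp_mul hy hx

/-- `x ∈ s V_P`, `y ∈ t V_P` imply `x y ∈ s t V_P`. -/
theorem tp_prod2 [P.IsPrime] {s t x y : Om} (hx : TP P s x) (hy : TP P t y) :
    TP P (s * t) (x * y) := by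
  obtain ⟨a, ha, rfl⟩ := hx
  obtain ⟨b, hb, rfl⟩ := hy
  exact ⟨a * b, DI.VP.mul ha hb, by ring⟩

/-- `x ∈ s V_P`, `s ∈ t V_P` imply `x ∈ t V_P`. -/
theorem tp_trans [P.IsPrime] {s t x : Om} (hx : TP P s x) (hs : TP P t s) : TP P t x := by
  obtain ⟨a, ha, rfl⟩ := hx
  exact tp_mul_right hs ha

theorem tp_iff {t x : Om} (ht : t ≠ 0) : TP P t x ↔ VP P (x / t) := by
  constructor
  · rintro ⟨y, hy, rfl⟩
    rwa [mul_div_cancel_left₀ _ ht]
  · intro h
    exact ⟨x / t, h, by rw [mul_div_cancel₀ _ ht]⟩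

theorem tp_sum [P.IsPrime] {ι : Type*} (s : Finset ι) (f : ι → Om) (t : Om)
    (h : ∀ i ∈ s, TP P t (f i)) : TP P t (∑ i ∈ s, f i) := by
  classical
  induction s using Finset.induction_on with
  | empty =>
    rw [Finset.sum_empty]
    exact tp_zero t
  | insert a s ha ih =>
    rw [Finset.sum_insert ha]
    exact tp_add (h a (Finset.mem_insert_self _ _)) (ih fun i hi => h i (Finset.mem_insert_of_mem hi))

/-- `x ∈ t V_P`, `t ∈ M_P` imply `x ∈ M_P`. -/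
theorem tp_mp [P.IsPrime] {t x : Om} (hx : TP P t x) (ht : MP P t) : MP P x := by
  obtain ⟨a, ha, rfl⟩ := hx
  exact DI.MP.mul_right ht ha

/-- `x ∈ t V_P`, `t ∈ V_P` imply `x ∈ V_P`. -/
theorem tp_vp [P.IsPrime] {t x : Om} (hx : TP P t x) (ht : VP P t) : VP P x := by
  obtain ⟨a, ha, rfl⟩ := hx
  exact DI.VP.mul ht ha

/-- `zet 3` is a primitive third root of unity. -/
theorem zet3_prim : IsPrimitiveRoot (zet 3) 3 := (Pool.Agent.DI.tA2 3 (by norm_num)).2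

/-- `zet n` is a primitive `n`-th root of unity. -/
theorem zet_prim (n : ℕ) (hn : 0 < n) : IsPrimitiveRoot (zet n) n := (Pool.Agent.DI.tA2 n hn).2

theorem zet3_cube : zet 3 ^ 3 = 1 := zet3_prim.pow_eq_one

theorem zet3_ne : zet 3 ≠ 1 := zet3_prim.ne_one (by norm_num)

theorem zet3_sq : zet 3 ^ 2 = -1 - zet 3 := by
  have h1 : (zet 3 - 1) * (zet 3 ^ 2 + zet 3 + 1) = 0 := by
    have := zet3_cube
    linear_combination this
  rcases mul_eq_zero.1 h1 with h | h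
  · exact absurd (sub_eq_zero.1 h) zet3_ne
  · linear_combination h

/-- `λ = 1 - ζ₃`. -/
def lam : Om := 1 - zet 3

theorem lam_ne : lam ≠ 0 := fun h => zet3_ne (sub_eq_zero.1 h).symm

/-- `λ² = -3 ζ₃`. -/
theorem lam_sq : lam ^ 2 = -3 * zet 3 := by
  unfold lam
  linear_combination zet3_sq

theorem zet3_vp [P.IsPrime] : VP P (zet 3) :=
  DI.VP.integral (zet3_prim.isIntegral (by norm_num))

theorem lam_vp [P.IsPrime] : VP P lam := DI.VP.sub DI.VP.one zet3_vp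

/-- `3 = - ζ₃² λ²`. -/
theorem three_eq : (3 : Om) = -zet 3 ^ 2 * lam ^ 2 := by
  rw [lam_sq]
  have := zet3_cube
  linear_combination (-3 : Om) * this

theorem three_tp [P.IsPrime] : TP P (lam ^ 2) 3 := by
  refine ⟨-zet 3 ^ 2, DI.VP.neg (DI.VP.pow zet3_vp 2), ?_⟩
  rw [mul_comm]
  exact three_eq

theorem lamsq_tp [P.IsPrime] : TP P 3 (lam ^ 2) :=
  ⟨-zet 3, DI.VP.neg zet3_vp, by rw [lam_sq]; ring⟩

/-- `3 V_P = λ² V_P`. -/
theorem tp3_iff [P.IsPrime] {x : Om} : TP P 3 x ↔ TP P (lam ^ 2) x :=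
  ⟨fun h => tp_trans h three_tp, fun h => tp_trans h lamsq_tp⟩

theorem lam_mp [P.IsPrime] (h3 : MP P 3) : MP P lam := by
  refine DI.MP.of_pow (n := 2) ?_
  exact tp_mp lamsq_tp h3

theorem three_lam [P.IsPrime] : TP P lam 3 := by
  obtain ⟨y, hy, h⟩ := three_tp (P := P)
  refine ⟨lam * y, DI.VP.mul lam_vp hy, ?_⟩
  rw [h]
  ring

end Pool.Agent.DT.GL
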