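import Pool.Agent.Lib.DI.G.SpecL
import Pool.Agent.Lib.DT.T.Spec
import Pool.Agent.Lib.DT.GL.Tp

/-!
# Theorem DT, part GL (author helper66): the local lemma (G4, G8, G9) for an abstract tower, `p = 3`

`P` is a prime of the integral closure `ZZ` above `3`. `L` is a Galois extension of `ℚ` which contains `μ₃` and has
ramification index `2` at `P` (`Tam P L`), `LN N` is the field `L(μ_(3^N))`, `N ≥ 1`. `lam = 1 - zet 3`, `lam² V_P = 3 V_P`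
(`tp3_iff`). The case `p = 2` is `DK/GL/Spec.lean`; the main difference: `s w / w - 1` is only determined modulo `3` up to
an integer multiple of `lam` (because `L_N` contains `μ_(3^N)`).

Tools: `GL/Tp.lean` (`tp_add`, `tp_sub`, `tp_mul`, `tp_mul_right`, `tp_prod2`, `tp_trans`, `tp_iff`, `tp_sum`, `tp_mp`, `tp_vp`, `zet3_prim`, `zet3_cube`, `zet3_sq`,
`zet3_ne`, `lam_ne`, `lam_sq`, `three_tp`, `lamsq_tp`, `tp3_iff`, `lam_mp`, `three_lam`), `DI/Val.lean` (`DI.VP.add`, `DI.VP.inv`, `DI.VP.or_inv`, `DI.VP.not_iff`, `DI.VP.of_pow`, `DI.UP.of_pow`, `DI.UP.congr`,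
`DI.VP.inertia`, `DI.VP.inertia_vp`, ..; give the instance by `have := hP`), `mem_of_Fx` (an element fixed by all `τ` which fix `M` is in `M`), `MuZ/Tot.lean`.

RULES: the statement `S_X` is to be proved as `theorem tX : S_X` in the module `Pool/Agent/Lib/DT/GL/X.lean` with the first
lines `import Pool.Agent.Lib.DT.GL.Spec`, `set_option autoImplicit false`, `open scoped Pointwise`, `noncomputable section`,
`namespace Pool.Agent.DT.GL` and the `open` lines of this file. Auxiliary declarations are `private`. Every `C_X` is a statement, `S_X` the implication from the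
statements used to `C_X`. All modules are independent.
-/

set_option autoImplicit false

open scoped Pointwise

noncomputable section

namespace Pool.Agent.DT.GL

open Pool.Agent.MuZ Pool.Agent.FW
open Pool.Agent.DI (VP MP UP TP)
open Pool.Agent.DI.GL (Fx StP mem_of_Fx Fx.mul Fx.inv Fx.one)

/-- `M` has ramification index (dividing) `2` at `P`. -/
def Tam (P : Ideal ZZ) (M : IntermediateField ℚ Om) : Prop := ∀ x ∈ M, MP P x → VP P (x ^ 2 / 3)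

/-- The facts on the fields `L`, `L_N` which are used. -/
structure Sit (L : IntermediateField ℚ Om) (LN : ℕ → IntermediateField ℚ Om) (P : Ideal ZZ) : Prop where
  prime : P.IsPrime
  three : MP P 3
  nrm : ∀ τ : Gal(Om/ℚ), ∀ x ∈ L, τ x ∈ L
  lnn : ∀ (N : ℕ) (τ : Gal(Om/ℚ)), 1 ≤ N → ∀ x ∈ LN N, τ x ∈ LN N
  mu : zet 3 ∈ L
  inr : ∀ τ ∈ P.inertia Gal(Om/ℚ), τ (zet 3) = zet 3 → Fx L τ
  tam : Tam P L
  lnx : ∀ (N : ℕ) (ζ : Om), 1 ≤ N → IsPrimitiveRoot ζ (3 ^ N) → ∀ τ : Gal(Om/ℚ),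
    Fx (LN N) τ ↔ Fx L τ ∧ τ ζ = ζ

/-- `d` is in the group `D_P ∩ Gal(Om/L_∞)`. -/
def DD (LN : ℕ → IntermediateField ℚ Om) (P : Ideal ZZ) (d : Gal(Om/ℚ)) : Prop :=
  StP P d ∧ ∀ n : ℕ, 1 ≤ n → Fx (LN n) d

/-- `d` is in `D_P`, fixes `L` and the roots of unity of order `3 ^ m`. -/
def DL (L : IntermediateField ℚ Om) (P : Ideal ZZ) (m : ℕ) (d : Gal(Om/ℚ)) : Prop :=
  StP P d ∧ Fx L d ∧ ∀ z : Om, z ^ 3 ^ m = 1 → d z = z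

/-- `s` generates `Gal(L_N/L_(N-1))`: it fixes `L` and `s ζ = ζ ζ^(3^(N-1))` for `ζ` of order `3 ^ N`. -/
def SNs (L : IntermediateField ℚ Om) (N : ℕ) (s : Gal(Om/ℚ)) : Prop :=
  Fx L s ∧ ∀ ζ : Om, IsPrimitiveRoot ζ (3 ^ N) → s ζ = ζ * ζ ^ 3 ^ (N - 1)

/-! ## General facts at the primes above `3` -/

/-- `P` is maximal; `StP` is the stabiliser of `P`, a closed condition. -/
def C_Stb : Prop :=
  ∀ P : Ideal ZZ, P.IsPrime → MP P 3 → P.IsMaximal ∧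
    (∀ d : Gal(Om/ℚ), StP P d ↔ d ∈ MulAction.stabilizer Gal(Om/ℚ) P) ∧
    (∀ d ∈ P.inertia Gal(Om/ℚ), StP P d) ∧ IsClosed {d : Gal(Om/ℚ) | StP P d}

/-- (80 lines) **Stb.** PROOF. The same as `DI/G/L/Stb.lean` with `3` instead of `2`. -/
def S_Stb : Prop := C_Stb

/-- The valuation of `V_P` has rank one. -/
def C_Arch : Prop :=
  ∀ P : Ideal ZZ, P.IsPrime → MP P 3 → (∀ x : Om, ∃ k : ℕ, VP P (3 ^ k * x)) ∧
    (∀ y : Om, MP P y → ∀ M : ℕ, ∃ K : ℕ, ∀ n : ℕ, K ≤ n → TP P (3 ^ M) (y ^ n)) ∧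
    ∀ t : Om, UP P t → ∀ M : ℕ, ∃ j : ℕ, 0 < j ∧ TP P (3 ^ M) (t ^ j - 1)

/-- (280 lines) **Arch.** PROOF. Edit of `DI/G/L/Arch.lean` (docstring of `S_Arch` in `DI/G/SpecL.lean`) with `3` for `2`. Only the last step of (3) changes: `t ^ j = 1 + y`, `MP P y`, `c ∈ {y, 3}` with
`y, 3 ∈ c V_P`, `MP P c`; by induction on `k` `TP P (c ^ (k + 1)) ((1 + y) ^ 3 ^ k - 1)`: `(1 + z) ^ 3 - 1 = z (z ^ 2 + 3 z + 3)` and `z ^ 2 + 3 z + 3 ∈ c V_P` for `z ∈ c V_P`. -/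
def S_Arch : Prop := C_Arch

/-- Inertia elements with given action on the roots of unity of order `3 ^ m`. -/
def C_Iu : Prop :=
  ∀ P : Ideal ZZ, P.IsPrime → MP P 3 → ∀ (m u : ℕ), u.Coprime 3 →
    ∃ ι ∈ P.inertia Gal(Om/ℚ), ∀ z : Om, z ^ 3 ^ m = 1 → ι z = z ^ u

/-- (80 lines) **Iu.** PROOF. Edit of `DI/G/L/Iu.lean` with `3` for `2` (`tot_gen 3 m`, `tot_one 3 m Nat.prime_three`). -/
def S_Iu : Prop := C_Iu

/-- The numbers `1` modulo `3 ^ N` are powers of `1 + 3 ^ N` modulo `3 ^ m`. -/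
def C_Pw : Prop :=
  ∀ N : ℕ, 1 ≤ N → ∀ m c : ℕ, c ≡ 1 [MOD 3 ^ N] → ∃ t : ℕ, c ≡ (1 + 3 ^ N) ^ t [MOD 3 ^ m]

/-- (70 lines) **Pw.** PROOF. (`DI/G/L/Pw.lean` for `2`.) For `m ≤ N` take `t = 0`. Induction on `m ≥ N`: let `c ≡ (1 + 3 ^ N) ^ t` modulo `3 ^ m`; then `c ≡ (1 + 3 ^ N) ^ t + i 3 ^ m` modulo `3 ^ (m + 1)` for some
`i ∈ {0, 1, 2}`. Use `t + i 3 ^ (m - N)`: `(1 + 3 ^ N) ^ 3 ^ k = 1 + 3 ^ (N + k) (1 + 3 b)` for some `b` (induction on `k`: `(1 + x) ^ 3 = 1 + 3 x + 3 x ^ 2 + x ^ 3`, and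
`3 x ^ 2 + x ^ 3 ∈ 3 ^ (n + 2) ℤ` for `x ∈ 3 ^ n ℤ`, `n ≥ 1`), so `((1 + 3 ^ N) ^ 3 ^ (m - N)) ^ i ≡ 1 + i 3 ^ m` modulo `3 ^ (m + 1)`, and `(1 + 3 ^ N) ^ t * (i 3 ^ m) ≡ i 3 ^ m` modulo `3 ^ (m + 1)`. -/
def S_Pw : Prop := C_Pw

/-- The Kummer character. -/
def C_Kap : Prop :=
  (∀ (w r : Om) (d : Gal(Om/ℚ)), w ≠ 0 → r ^ 3 = w → d w = w → d (zet 3) = zet 3 →
    (kap w d = 0 ↔ d r = r)) ∧
  (∀ (w w' : Om) (d : Gal(Om/ℚ)), w ≠ 0 → w' ≠ 0 → d w = w → d w' = w' → d (zet 3) = zet 3 →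
    kap (w * w') d = kap w d + kap w' d) ∧
  (∀ (w : Om) (d d' : Gal(Om/ℚ)), w ≠ 0 → d w = w → d' w = w → d (zet 3) = zet 3 →
    d' (zet 3) = zet 3 → kap w (d * d') = kap w d + kap w d') ∧
  ∀ (ι : Type) (s : Finset ι) (u : ι → Om) (c : ι → ℕ) (d : Gal(Om/ℚ)), d (zet 3) = zet 3 →
    (∀ v ∈ s, u v ≠ 0 ∧ d (u v) = u v) →
    kap (∏ v ∈ s, u v ^ c v) d = ∑ v ∈ s, (c v : ZMod 3) * kap (u v) d

/-- (100 lines) **Kap.** PROOF. Import also `Pool.Agent.Lib.DT.H3.Zt` and `Pool.Agent.Lib.DT.T.Ka`: `H3.tZt pKa` says `kap w d = kp 3 (zet 3) w d` if `w ≠ 0`, `d w = w`, `d (zet 3) = zet 3`, and `pKa : S_pKa` gives (1), (3) for `kp`: (1)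
`kap w d = i ↔ d r = zet 3 ^ i * r` for `r ^ 3 = w`. (2) Let `r ^ 3 = w`, `r' ^ 3 = w'`, `d r = zet 3 ^ i r`, `d r' = zet 3 ^ j r'` (`i = (kap w d).val`, ..); `(r r') ^ 3 = w w'`, `d (r r') = zet 3 ^ (i + j) r r'`. (4) Induction on the finset and on the exponent from (2);
`kap 1 d = 0` by (1). -/
def S_Kap : Prop := C_Kap

/-- The numbers `1 - ζ`. -/
def C_X0 : Prop :=
  ∀ P : Ideal ZZ, P.IsPrime → MP P 3 → ∀ N : ℕ, 1 ≤ N → ∀ ζ : Om, IsPrimitiveRoot ζ (3 ^ N) →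
    1 - ζ ≠ 0 ∧ MP P (1 - ζ) ∧ (∀ i : ℕ, i.Coprime 3 → UP P ((1 - ζ ^ i) / (1 - ζ))) ∧
    (∀ ζ' : Om, ζ' ^ 3 = ζ → UP P ((1 - ζ') ^ 3 / (1 - ζ))) ∧
    UP P ((1 - ζ) ^ 3 ^ (N - 1) / lam)

/-- (120 lines) **X0.** PROOF. (1) `MP P (1 - ζ)`: `tot_one 3 N` (`MuZ/Tot.lean`) as in `DI/G/L/Iu.lean`. (2) `i` prime to `3`: `(1 - ζ ^ i) / (1 - ζ) = ∑ j < i, ζ ^ j` is integral; let `i j ≡ 1` modulo `3 ^ N`: `(1 - ζ) / (1 - ζ ^ i) = (1 - (ζ ^ i) ^ j) / (1 - ζ ^ i)`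
is integral (`ζ ^ i` is primitive, so `1 - ζ ^ i ≠ 0`). `DI.UP.iff`. (3) Let `ζ' ^ 3 = ζ`; `w = ζ' ^ 3 ^ N` satisfies `w ^ 3 = 1`, `w ≠ 1` (`w = ζ ^ 3 ^ (N - 1)`, `ζ` primitive), so `1 - ζ' ^ 3 = (1 - ζ') (1 - ζ' w) (1 - ζ' w ^ 2)` (`1 + w + w ^ 2 = 0`) and `ζ' w ^ i = ζ' ^ (1 + i 3 ^ N)`. `ζ'` is primitive of
order `3 ^ (N + 1)` (its cube is primitive of order `3 ^ N`, `N ≥ 1`), and by (2) for `N + 1`: `(1 - ζ' w ^ i) / (1 - ζ')` is a unit. So `(1 - ζ) / (1 - ζ') ^ 3` is a unit, invert. (4) Induction on `N`. `N = 1`: `ζ` is a primitive cube root of unity, so `ζ = zet 3` or `ζ = zet 3 ^ 2`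
(`IsPrimitiveRoot.eq_pow_of_pow_eq_one`), (2) for `zet 3`. `N + 1`: `(1 - ζ') ^ 3 ^ N / lam = ((1 - ζ') ^ 3 / (1 - ζ)) ^ 3 ^ (N - 1) * ((1 - ζ) ^ 3 ^ (N - 1) / lam)` with `ζ = ζ' ^ 3`. -/
def S_X0 : Prop := C_X0

/-- Independence of the powers of `ζ` over a tamely ramified field. -/
def C_Uni : Prop :=
  ∀ P : Ideal ZZ, P.IsPrime → MP P 3 → ∀ (M : IntermediateField ℚ Om) (N : ℕ) (ζ : Om), 1 ≤ N →
    IsPrimitiveRoot ζ (3 ^ N) → Tam P M → ∀ A : ℕ → Om, (∀ c, A c ∈ M) → (∀ c, VP P (A c)) →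
    TP P lam (∑ c ∈ Finset.range (3 ^ (N - 1)), ζ ^ c * A c) → ∀ c < 3 ^ (N - 1), TP P lam (A c)

/-- (130 lines) **Uni.** PROOF. (`DI/G/Uni.lean` and `DK/G/Uni.lean` for `2`; copy the argument.) `n = 3 ^ (N - 1)`, `l = ζ - 1`; `l ∈ M_P` and `l ^ n = lam * unit` (X0; `(ζ - 1) ^ n = ± (1 - ζ) ^ n`). `∑_(c<n) ζ^c A_c = ∑_(j<n) l^j B_j` (binomial theorem for `ζ = 1 + l`),
`B_j = ∑_(j ≤ c < n) binom(c,j) A_c ∈ M`, `VP P B_j`. CLAIM: all `B_j ∈ lam V_P`. Otherwise let `j` be the least index with `B_j ∉ lam V_P`. `B_j` is a unit: if `MP P B_j` then `VP P (B_j ^ 2 / 3)` (`Tam`), so `VP P ((B_j / lam) ^ 2)` (`lam ^ 2 = -3 zet 3`),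
`VP P (B_j / lam)` (`DI.VP.of_pow`). Then `∑_(i ≥ j) l^i B_i = l^j (B_j + l (..))` is `l^j` times a unit and is in `lam V_P = l^n V_P`; as `j < n` this gives `MP P` of a unit (`l^(n-j) ∈ M_P`), contradiction.
Finally `A_c = B_c - ∑_(c < c' < n) binom(c',c) A_(c')`: downward induction on `c`. -/
def S_Uni : Prop := C_X0 → C_Uni

/-- Approximation of a cube root which is fixed by the decomposition group. -/
def C_App : Prop :=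
  ∀ (F : IntermediateField ℚ Om) (P : Ideal ZZ), P.IsPrime → MP P 3 → zet 3 ∈ F →
    ∀ r : Om, r ^ 3 ∈ F → (∀ d : Gal(Om/ℚ), StP P d → Fx F d → d r = r) →
    ∀ M : ℕ, ∃ r' ∈ F, TP P (3 ^ M) (r - r')

/-- (220 lines) **App** (from Stb, Arch). PROOF. (`DI/G/L/App.lean` for `2`.) If `r ∈ F` take `r' = r`. Otherwise there is `g₀`, `Fx F g₀`, `g₀ r ≠ r` (`mem_of_Fx`), `(g₀ r) ^ 3 = r ^ 3`, so `g₀ r = zet 3 ^ a r`, `a ∈ {1, 2}`; let `g = g₀` or `g₀ * g₀` with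
`g r = w r`, `w = zet 3` (`zet 3 ∈ F` is fixed). `r ≠ 0`. Every `τ` with `Fx F τ` has `τ r = w ^ i r`, `i ∈ {0, 1, 2}`. Let `H` be the subgroup of the `h` with `Fx F h`, `h r = r`; it is closed (`QZ.eq_closed'`, intersections), normalised by all `τ` with `Fx F τ`, and `τ = g ^ i h`, `h ∈ H`.
STEP 1. For `i = 1, 2` there is `t_i : ZZ`, fixed by `H`, `t_i ∉ P`, `g ^ i • t_i ∈ P`. Proof: if `x ∈ P ↔ x ∈ (g ^ i)⁻¹ • P` for all `x` fixed by `H` then `tot_trans` (`MuZ/Tot.lean`) gives `h ∈ H` with `(g ^ i)⁻¹ • P = h • P`, so `d = g ^ i h` stabilises `P` and fixes `F`, so `d r = r` by hypothesis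
(Stb), but `d r = w ^ i r ≠ r`: contradiction. So there is `x` fixed by `H` with (a) `x ∉ P`, `g ^ i • x ∈ P`: `t_i = x`; or (b) `x ∈ P`, `g ^ i • x ∉ P`: by Arch 3 for the unit `u = g ^ i • x` (`M = 1`) there is `j > 0` with `TP P 3 (u ^ j - 1)`, so `u ^ j - 1 ∈ P`: `t_i = 1 - x ^ j` (`∉ P` since `x ^ j ∈ P`; `g ^ i • t_i = 1 - u ^ j ∈ P`).
STEP 2. `t = t_1 t_2`: `t ∉ P`, `g • t ∈ P`, `g ^ 2 • t ∈ P`, `t` is fixed by `H`. `K` with `VP P (3 ^ K * r)` (Arch 1), `M' = M + K`. Arch 3 for `t` and `M'`: `j > 0`, `TP P (3 ^ M') (t ^ j - 1)`; Arch 2 for `g t`, `g² t` and `M'`: `n0`. `e = t ^ (j * (n0 + 1))`: `TP P (3 ^ M') (e - 1)` (`a - 1 ∣ a ^ n - 1`),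
`TP P (3 ^ M') (g e)`, `TP P (3 ^ M') (g² e)`. STEP 3. `r' = e r + g (e r) + g² (e r)`, `g (e r) = (g e) w r`, `g² (e r) = (g² e) w² r`. It is in `F`: let `τ` fix `F`, `τ = g ^ k h`; `h` fixes `e r`, `h g^i (e r) = g^i (g^(-i) h g^i) (e r) = g^i (e r)`, and `g ^ 3 ∈ H`: `τ` permutes the three terms.
And `r - r' = r (1 - e) - (g e) w r - (g² e) w² r` is in `3 ^ M' r V_P ⊆ 3 ^ M V_P`. -/
def S_App : Prop := C_Stb → C_Arch → C_App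

/-- Fields with inertia group of order (dividing) two. -/
def C_UnrT : Prop :=
  ∀ M : IntermediateField ℚ Om, FiniteDimensional ℚ M → (∀ τ : Gal(Om/ℚ), ∀ x ∈ M, τ x ∈ M) →
    zet 3 ∈ M → ∀ P : Ideal ZZ, P.IsPrime → P ≠ ⊥ → MP P 3 →
    (∀ τ ∈ P.inertia Gal(Om/ℚ), τ (zet 3) = zet 3 → ∀ x ∈ M, τ x = x) → Tam P M

/-- (200 lines) **UnrT.** PROOF. Adapt `DI/FH/Unr.lean` (`unrG`, `Unr_two`, `Unr_exp`). `w = P ∩ M`. Let `I` be the inertia subgroup of `Gal(M/ℚ)` at `w`. If `σ ∈ I` and `σ ζ = ζ` (`ζ` = `zet 3` as an element of `M`) then `σ = 1`: as in `unrG` `tEIne` gives `τ ∈ P.inertia` which agrees with the lift of `σ` on `M`,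
`τ (zet 3) = zet 3`, so `τ` is trivial on `M`. So `σ ↦ σ ζ ∈ {ζ, ζ²}` is injective on `I` (`σ ζ = σ' ζ` gives `σ⁻¹ σ' ζ = ζ`), `card I ≤ 2`. `e = card I` is the ramification index (`Ideal.card_inertia_eq_ramificationIdxIn` as in `Unr_two`), so `w.valuation M 3 = exp (- e) ≥ exp (-2)`.
For `x ∈ M`, `MP P x`, `x ≠ 0`: `w.valuation M x ≤ exp (-1)`, so the valuation of `x ^ 2 / 3` is at most `exp (-2 + e) ≤ 1`, i.e. `VP P (x ^ 2 / 3)` (end of `unrG`). -/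
def S_UnrT : Prop := C_UnrT

/-! ## The tower -/

/-- `L_N = L(ζ)`. -/
def C_D2 : Prop :=
  ∀ (L : IntermediateField ℚ Om) (LN : ℕ → IntermediateField ℚ Om) (P : Ideal ZZ),
    Sit L LN P → ∀ N : ℕ, 1 ≤ N → ∀ ζ : Om, IsPrimitiveRoot ζ (3 ^ N) → ∀ ρ ∈ LN N,
    ∃ a : ℕ → Om, (∀ i, a i ∈ L) ∧ ρ = ∑ i ∈ Finset.range (3 ^ (N - 1)), ζ ^ i * a i

/-- (120 lines) **D2.** PROOF. Let `E = L ⊔ ℚ(ζ)` (or `(IntermediateField.adjoin L {ζ}).restrictScalars ℚ`). `ρ ∈ E`: by `mem_of_Fx` it is enough that every `τ` which fixes `E` fixes `ρ`; it fixes `L` and `ζ`, so it fixes `LN N` (`Sit.lnx`). Every element of `L(ζ)` is `∑_j c_j ζ^j` with `c_j ∈ L`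
(`ζ` is algebraic: `IntermediateField.adjoin_simple_toSubalgebra_of_integral` or `IntermediateField.mem_adjoin_simple_iff`, `Algebra.adjoin_singleton..`). `ζ ^ 3 ^ (N - 1)` has cube `1`, so it is `1`, `zet 3` or `zet 3 ^ 2`, in `L` (`Sit.mu`). The set of the sums `∑_(i < n) ζ^i a_i`, `n = 3 ^ (N - 1)`, `a_i ∈ L`, contains `L`,
is closed under addition and under multiplication by elements of `L` and by `ζ` (`ζ · ζ^(n-1) = ζ^n ∈ L`; shift the indices), so it contains all `∑_j c_j ζ^j`. -/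
def S_D2 : Prop := C_D2

/-- `s r - r` is in `lam V_P`. -/
def C_G4 : Prop :=
  ∀ (L : IntermediateField ℚ Om) (LN : ℕ → IntermediateField ℚ Om) (P : Ideal ZZ),
    Sit L LN P → ∀ N : ℕ, 2 ≤ N → ∀ s : Gal(Om/ℚ), SNs L N s →
    ∀ r ∈ LN N, VP P r → TP P lam (s r - r)

/-- (100 lines) **G4** (from Arch, X0, Uni, D2). PROOF. `ζ` primitive of order `3 ^ N` (`zet_prim`), `r = ∑_(i<n) ζ^i a_i`, `n = 3 ^ (N-1)`, `a_i ∈ L` (D2; put `a_i = 0` for `i ≥ n`). By Arch 1 there is `k` with `VP P (3 ^ k a_i)` for all `i < n`, so `VP P (lam ^ (2 k) a_i)` (`lam ^ 2 = - 3 zet 3`). Let `n0` be the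
least number with `VP P (lam ^ n0 a_i)` for all `i < n` (`Nat.find`). If `n0 ≥ 1`: `∑ ζ^i (lam ^ n0 a_i) = lam ^ n0 r ∈ lam V_P`, `lam ^ n0 a_i ∈ L` (`lam ∈ L` by `Sit.mu`), so by Uni `TP P lam (lam ^ n0 a_i)`, i.e. `VP P (lam ^ (n0 - 1) a_i)`: contradiction. So `VP P (a_i)`. `s ζ = ζ w`, `w = ζ ^ 3 ^ (N-1)`,
`w ^ 3 = 1`, so `w ∈ {1, zet 3, zet 3 ^ 2}` and `w ^ i - 1 ∈ lam V_P`; `s a_i = a_i`: `s r - r = ∑ ζ^i (w^i - 1) a_i`. -/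
def S_G4 : Prop := C_Arch → C_X0 → C_Uni → C_D2 → C_G4

/-- Compactness. -/
def C_Cpt : Prop :=
  ∀ (L : IntermediateField ℚ Om) (LN : ℕ → IntermediateField ℚ Om) (P : Ideal ZZ),
    Sit L LN P → ∀ r : Om, (∀ d : Gal(Om/ℚ), DD LN P d → d r = r) →
    ∃ m0 : ℕ, ∀ m : ℕ, m0 ≤ m → ∀ d : Gal(Om/ℚ), DL L P m d → d r = r

/-- (75 lines) **Cpt** (from Stb). PROOF. Edit of `DK/GL/Cpt.lean` (no condition on `i`; `d` fixes `L` and all roots of unity of order a power of `3`, so it fixes all `LN n`, `n ≥ 1`, by `Sit.lnx`). -/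
def S_Cpt : Prop := C_Stb → C_Cpt

/-- The Kummer character of `w` on `D_P ∩ Gal(Om/L_N)` is that of a power of `ζ`. -/
def C_G8a : Prop :=
  ∀ (L : IntermediateField ℚ Om) (LN : ℕ → IntermediateField ℚ Om) (P : Ideal ZZ),
    Sit L LN P → ∀ N : ℕ, 1 ≤ N → ∀ ζ : Om, IsPrimitiveRoot ζ (3 ^ N) → ∀ w ∈ LN N, w ≠ 0 → ∀ m : ℕ,
    (∀ d : Gal(Om/ℚ), DL L P m d → kap w d = 0) →
    ∃ j : ℕ, ∀ r : Om, r ^ 3 = w * ζ ^ j → ∀ d : Gal(Om/ℚ), StP P d → Fx (LN N) d → d r = r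

/-- (200 lines) **G8a** (from Iu, Stb, Kap, Pw). PROOF. (See `DK/GL/G8a.lean`; this one is simpler: no signs.) One may enlarge `m` (`DL L P m' d → DL L P m d` for `m ≤ m'`), so let `m ≥ N + 1`, and `z0` a primitive `3 ^ m`-th root of unity with `z0 ^ 3 ^ (m - N) = ζ` (take `z1 = zet (3 ^ m)`; `ζ` is a power
`(z1 ^ 3 ^ (m - N)) ^ i`, `i` prime to `3`, put `z0 = z1 ^ i`). Iu: `d2` with `u = 1 + 3 ^ N`; `d2` is in the inertia group, so `StP` (Stb); `d2 (zet 3) = zet 3` (`(zet 3) ^ 3 ^ N = 1`), so `Fx L d2` (`Sit.inr`), `d2 ζ = ζ`, so it fixes `LN N` (`Sit.lnx`). Let `ζ1 = z0 ^ 3 ^ (m - N - 1)`: `ζ1 ^ 3 = ζ`,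
`d2 ζ1 = ζ1 * ζ1 ^ 3 ^ N`, `ζ1 ^ 3 ^ N ≠ 1`, so (Kap 1) `kap ζ d2 ≠ 0`. `ζ ∈ LN N` (`mem_of_Fx`, `Sit.lnx`), `zet 3 ∈ LN N`. Choose `j` with `kap w d2 + j * kap ζ d2 = 0` in `ZMod 3`; `w' = w * ζ ^ j`: `kap w' d2 = 0` (Kap 2, 4). If `DL L P m d` then `kap w' d = 0`: `kap w d = 0` by hypothesis, `d ζ1 = ζ1` so
`kap ζ d = 0` (Kap 1). Let `StP P d`, `Fx (LN N) d`. `d z0 = z0 ^ c`, and `d ζ = ζ` gives `c ≡ 1` modulo `3 ^ N`. Pw: `t` with `c ≡ (1 + 3 ^ N) ^ t` modulo `3 ^ m`; `d2 ^ t z0 = z0 ^ ((1 + 3 ^ N) ^ t) = d z0`, so `(d2 ^ t)⁻¹ * d` satisfies `DL L P m` (all `z` with `z ^ 3 ^ m = 1` are powers of `z0`; `StP` is the stabiliser,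
a subgroup, by Stb), and `kap w' d = t * kap w' d2 + kap w' ((d2 ^ t)⁻¹ * d) = 0` (Kap 3; `kap w' (d2 ^ t) = 0` by induction). Conclude by Kap 1. -/
def S_G8a : Prop := C_Iu → C_Stb → C_Kap → C_Pw → C_G8a

/-- The local lemma, second step. -/
def C_G8b : Prop :=
  ∀ (L : IntermediateField ℚ Om) (LN : ℕ → IntermediateField ℚ Om) (P : Ideal ZZ),
    Sit L LN P → ∀ N : ℕ, 2 ≤ N → ∀ s : Gal(Om/ℚ), SNs L N s → ∀ ζ : Om, IsPrimitiveRoot ζ (3 ^ N) →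
    ∀ w ∈ LN N, UP P w → ∀ (j : ℕ) (r : Om), r ^ 3 = w * ζ ^ j →
    (∀ d : Gal(Om/ℚ), StP P d → Fx (LN N) d → d r = r) →
    ∃ n : ℕ, TP P 3 (s w / w - 1 - n * (1 - zet 3))

/-- (180 lines) **G8b** (from Iu, App, G4). PROOF. `ζ`, `zet 3 ∈ LN N` (`mem_of_Fx`, `Sit.lnx`), `r ^ 3 ∈ LN N`. App with `F = LN N`, `M = 2`: `r' ∈ LN N`, `r - r' = 9 y`, `VP P y`. `r ^ 3 = w ζ ^ j` is a unit, so `r` is a unit (`DI.UP.of_pow`), `VP P r'`. Iu with `m = N`, `u = 1 + 3 ^ (N-1)`: `ι` in the inertia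
group, `ι z = z * z ^ 3 ^ (N-1)` for `z ^ 3 ^ N = 1`; so `ι (zet 3) = zet 3` (`N ≥ 2`), `ι` fixes `L` (`Sit.inr`), `ι ζ = s ζ`. `s⁻¹ * ι` fixes `L` and `ζ`, hence `LN N` (`Sit.lnx`): `ι = s` on `LN N`. G4: `TP P lam (s r' - r')`, so `TP P lam (ι r' - r')`; `ι r = ι r' + 9 ι y`, `VP P (ι y)` (`DI.VP.inertia_vp`), so
`TP P lam (ι r - r)` (`three_lam`), and `ι r = r (1 + lam y')`, `VP P y'` (divide by the unit `r`). Cube: `ι (r ^ 3) = ι w (ι ζ) ^ j = s w * ζ ^ j * v ^ j`, `v = ζ ^ 3 ^ (N-1)`, `v ^ 3 = 1`. So `(s w / w) * v ^ j = (1 + lam y') ^ 3 = 1 + 3 lam y' + 3 lam ^ 2 y' ^ 2 + lam ^ 3 y' ^ 3 ∈ 1 + 3 V_P` (`lam ^ 2 ∈ 3 V_P`).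
Multiply by `v ^ (2 j)`: `s w / w - v ^ (2 j) ∈ 3 V_P`; `v ^ (2 j) ∈ {1, zet 3, zet 3 ^ 2}`, and `1 = 1 + 0 lam`, `zet 3 = 1 + 2 lam - 3 lam`, `zet 3 ^ 2 = 1 + lam - 3` (`zet3_sq`): `n = 0, 2, 1`. -/
def S_G8b : Prop := C_Iu → C_App → C_G4 → C_G8b

/-- **G8.** The local lemma. -/
def C_G8 : Prop :=
  ∀ (L : IntermediateField ℚ Om) (LN : ℕ → IntermediateField ℚ Om) (P : Ideal ZZ),
    Sit L LN P → ∀ N : ℕ, 2 ≤ N → ∀ s : Gal(Om/ℚ), SNs L N s → ∀ w ∈ LN N, UP P w →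
    (∀ d : Gal(Om/ℚ), DD LN P d → kap w d = 0) →
    ∃ n : ℕ, TP P 3 (s w / w - 1 - n * (1 - zet 3))

/-- (60 lines) **G8** (from Kap, Cpt, G8a, G8b). PROOF. Let `r0 ^ 3 = w` (`IsAlgClosed.exists_pow_nat_eq`). For `DD LN P d`: `d` fixes `LN N ∋ w` and `L ∋ zet 3` (`Sit.lnx` for `N`), so `kap w d = 0` gives `d r0 = r0` (Kap 1). Cpt: `m0`; for `DL L P m d`, `m = max m0 N`: `d r0 = r0`, and `d w = w` (`r0 ^ 3 = w`), so `kap w d = 0`. `ζ = zet (3 ^ N)`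
(`zet_prim`). G8a with this `m`: `j`. `r` with `r ^ 3 = w * ζ ^ j`. G8b. -/
def S_G8 : Prop := C_Kap → C_Cpt → C_G8a → C_G8b → C_G8

/-! ## Conclusion -/

/-- The ring generated by roots of unity of order prime to `3` is unramified at `3`. -/
def C_RR : Prop :=
  ∀ (ι : Type) (χ : ι → Om) (m : ℕ), m.Coprime 3 → (∀ v, χ v = 0 ∨ χ v ^ m = 1) →
    ∀ P : Ideal ZZ, P.IsPrime → MP P 3 → ∀ x ∈ Algebra.adjoin ℤ (Set.range χ), MP P x → TP P 3 x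

/-- (130 lines) **RR** (from Arch). PROOF. Edit of `DK/GL/RR.lean`: `q = 3 ^ φ(m)` (`Nat.ModEq.pow_totient`), so `m ∣ q - 1`, `z ^ q = z` for every generator. Claim: for all `x ∈ R = Algebra.adjoin ℤ (Set.range χ)` there is `y ∈ R` with `x ^ q = x + 3 y` (sums: `(x + x') ^ 3 = x ^ 3 + x' ^ 3 + 3 (..)`; if `a = b + 3 c` then
`a ^ 3 = b ^ 3 + 3 (..)`), so `x ^ q ^ k = x + 3 y`. Arch 2 (`M = 1`): `TP P 3 (x ^ q ^ k)` for large `k`. -/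
def S_RR : Prop := C_Arch → C_RR

/-- A basis of the residues of the `χ v`, over the field with three elements. -/
def C_Lin : Prop :=
  ∀ P : Ideal ZZ, P.IsPrime → MP P 3 → ∀ (ι : Type) (χ : ι → Om), (∀ v, VP P (χ v)) → ∀ D : Finset ι,
    ∃ (n : ℕ) (b : Fin n → ι) (c : Fin n → ι → ℕ),
      (∀ e : Fin n → ℕ, MP P (∑ i, (e i : Om) * χ (b i)) → ∀ i, 3 ∣ e i) ∧
      ∀ v ∈ D, MP P (χ v - ∑ i, (c i v : Om) * χ (b i))

/-- (100 lines) **Lin.** PROOF. Edit of `DK/GL/Lin.lean`. Induction on `D`. `D = insert v D'`: if there are `c0 : Fin n → ℕ` with `MP P (χ v - ∑ i, c0 i * χ (b i))` keep `n, b` and put `c i v := c0 i`. Otherwise add the index `v`. Independence: let `MP P (∑ i, e i χ(b i) + e0 χ v)`. If `3 ∣ e0`, `e0 χ v` is in `M_P` and the rest is the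
hypothesis for `D'`. If `e0` is prime to `3` then multiply by `2` if `e0 ≡ 2`: `MP P (χ v + ∑ i, e' i χ (b i))`, `e' = e` or `2 e` (as `3 ∈ M_P`), so `MP P (χ v - ∑ i, (2 e' i) χ (b i))`, excluded. -/
def S_Lin : Prop := C_Lin

/-- `w ↦ s w / w - 1` is additive modulo `3`. -/
def C_Dad : Prop :=
  ∀ P : Ideal ZZ, P.IsPrime → MP P 3 → ∀ (s : Gal(Om/ℚ)) (ι : Type) (D : Finset ι) (u : ι → Om) (c : ι → ℕ),
    (∀ v ∈ D, u v ≠ 0 ∧ TP P lam (s (u v) / u v - 1)) →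
    TP P 3 ((s (∏ v ∈ D, u v ^ c v) / (∏ v ∈ D, u v ^ c v) - 1) -
      ∑ v ∈ D, (c v : Om) * (s (u v) / u v - 1))

/-- (90 lines) **Dad.** PROOF. Edit of `DK/GL/Dad.lean`. Write `C w = s w / w - 1`. `C (w w') = C w + C w' + C w * C w'` (`w, w' ≠ 0`). If `C w, C w' ∈ lam V_P` then `C w * C w' ∈ lam ^ 2 V_P = 3 V_P` (`tp_prod2`, `tp3_iff`). Powers by induction, then induction on the finset; carry along that `C` of the product is in `lam V_P`. -/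
def S_Dad : Prop := C_Dad

/-- **G9.** Passage from `kap` to `s w / w - 1`. -/
def C_G9 : Prop :=
  ∀ (L : IntermediateField ℚ Om) (LN : ℕ → IntermediateField ℚ Om) (P : Ideal ZZ),
    Sit L LN P → ∀ N : ℕ, 2 ≤ N → ∀ s : Gal(Om/ℚ), SNs L N s → ∀ (ι : Type) (D : Finset ι) (u : ι → Om),
    (∀ v ∈ D, u v ∈ LN N ∧ UP P (u v)) → ∀ (χ : ι → Om) (m : ℕ), m.Coprime 3 →
    (∀ v, χ v = 0 ∨ χ v ^ m = 1) →
    (∀ d : Gal(Om/ℚ), DD LN P d → MP P (∑ v ∈ D, χ v * ((kap (u v) d).val : Om))) →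
    ∃ ka ∈ Algebra.adjoin ℤ (Set.range χ),
      TP P 3 (∑ v ∈ D, χ v * (s (u v) / u v - 1) - ka * (1 - zet 3))

/-- (170 lines) **G9** (from Kap, RR, Lin, Dad, G4, G8). PROOF. Edit of `DK/GL/G9.lean`. `VP P (χ v)` (roots of unity are integral). Lin: `n, b, c`. For `v ∈ D` the element `ρ v = χ v - ∑ i, c i v * χ (b i)` is in `R = Algebra.adjoin ℤ (Set.range χ)` and in `M_P`, so `TP P 3 (ρ v)` (RR). Let `w i = ∏ v ∈ D, u v ^ c i v`: in `LN N`, a unit.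
For `DD LN P d` (`d` fixes `LN N`, `zet 3`, `u v`): `∑ v, χ v * (kap (u v) d).val = ∑ v, ρ v * (..) + ∑ i, (∑ v ∈ D, c i v * (kap (u v) d).val : ℕ) * χ (b i)`, so the last sum is in `M_P` and by Lin `3 ∣ ∑ v ∈ D, c i v * (kap (u v) d).val` for all `i`; in `ZMod 3` this is `kap (w i) d = 0` (Kap 4, `ZMod.natCast_zmod_val`). G8: `n i` with
`TP P 3 (s (w i) / w i - 1 - n i * (1 - zet 3))`. G4: `TP P lam (s (u v) - u v)`, so `TP P lam (s (u v) / u v - 1)`. Dad: `TP P 3 (C (w i) - ∑ v ∈ D, c i v * C (u v))`, `C w = s w / w - 1`. `∑ v, χ v * C (u v) = ∑ v, ρ v * C (u v) + ∑ i, χ (b i) * ∑ v, c i v * C (u v)`: the first sum is in `3 V_P`, the second is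
`∑ i, χ (b i) * n i * (1 - zet 3)` modulo `3 V_P`. `ka = ∑ i, n i * χ (b i)`. -/
def S_G9 : Prop := C_Kap → C_RR → C_Lin → C_Dad → C_G4 → C_G8 → C_G9

/-! ## The assembly -/

/-- **G4** and **G9** without hypotheses follow. -/
theorem asmG4 (a2 : S_Arch) (a6 : S_X0) (a7 : S_Uni) (b1 : S_D2) (b2 : S_G4) : C_G4 :=
  b2 a2 a6 (a7 a6) b1

theorem asmG8 (a1 : S_Stb) (a2 : S_Arch) (a3 : S_Iu) (a4 : S_Pw) (a5 : S_Kap) (a8 : S_App)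
    (h4 : C_G4) (b3 : S_Cpt) (b4 : S_G8a) (b5 : S_G8b) (b6 : S_G8) : C_G8 :=
  b6 a5 (b3 a1) (b4 a3 a1 a5 a4) (b5 a3 (a8 a1 a2) h4)

theorem asmG9 (a2 : S_Arch) (a5 : S_Kap) (c1 : S_RR) (c2 : S_Lin) (c3 : S_Dad) (h4 : C_G4)
    (h8 : C_G8) (c4 : S_G9) : C_G9 := c4 a5 (c1 a2) c2 c3 h4 h8

end Pool.Agent.DT.GL
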