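import Pool.Agent.Lib.DT.GL.Spec
import Pool.Agent.Lib.FW.E.Ine

/-!
# DT, part GL, module UnrT: fields with inertia of order two (helper47)

Adapted from `DI/FH/Unr.lean` (helper67).
-/

set_option autoImplicit false

open scoped Pointwise

noncomputable section

namespace Pool.Agent.DT.GL

open Pool.Agent.MuZ Pool.Agent.FW
open Pool.Agent.DI (VP MP UP TP)
open Pool.Agent.DI.GL (Fx StP mem_of_Fx Fx.mul Fx.inv Fx.one)
open IsDedekindDomain
open scoped NumberField WithZero

/-- The valuation of `3` at a prime with inertia group of order at most two. -/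
private theorem UnrT_three (L : Type) [Field L] [NumberField L] [IsGalois ℚ L]
    (w : HeightOneSpectrum (𝓞 L)) (h3 : (3 : 𝓞 L) ∈ w.asIdeal)
    (hc : Nat.card (w.asIdeal.inertia Gal(L/ℚ)) ≤ 2) :
    WithZero.exp (-1 : ℤ) ^ 2 ≤ w.valuation L (3 : L) := by
  have hp3 : Prime (3 : ℤ) := Int.prime_three
  have hv : Ideal.span {(3 : ℤ)} ≠ ⊥ := by
    rw [Ne, Ideal.span_singleton_eq_bot]
    exact three_ne_zero
  let v : HeightOneSpectrum ℤ :=
    ⟨Ideal.span {3}, (Ideal.span_singleton_prime three_ne_zero).2 hp3, hv⟩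
  have hwP : w.asIdeal.IsPrime := w.isPrime
  have hvP : v.asIdeal.IsPrime := v.isPrime
  have hlies : w.asIdeal.LiesOver v.asIdeal := by
    refine (Ideal.liesOver_span_iff hwP.ne_top hp3).2 ?_
    rw [map_ofNat]
    exact h3
  have hgg : IsGaloisGroup Gal(L/ℚ) ℤ (𝓞 L) := IsGaloisGroup.of_isFractionRing Gal(L/ℚ) ℤ (𝓞 L) ℚ L
  have h3 : Nat.card (w.asIdeal.inertia Gal(L/ℚ)) = Ideal.ramificationIdxIn v.asIdeal (𝓞 L) :=
    Ideal.card_inertia_eq_ramificationIdxIn v.asIdeal w.asIdeal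
  have h4 := Ideal.ramificationIdxIn_eq_ramificationIdx v.asIdeal w.asIdeal Gal(L/ℚ)
  have h5 : v.asIdeal.ramificationIdx' w.asIdeal = w.asIdeal.ramificationIdx ℤ :=
    Ideal.ramificationIdx'_eq_ramificationIdx v.asIdeal w.asIdeal v.ne_bot
  have h6 := HeightOneSpectrum.intValuation_liesOver v w (3 : ℤ)
  have h9 : algebraMap ℤ (𝓞 L) 3 = 3 := map_ofNat _ 3
  rw [h5, ← h4, ← h3,
    HeightOneSpectrum.intValuation_singleton v three_ne_zero rfl, h9] at h6
  have h7 := HeightOneSpectrum.valuation_of_algebraMap (K := L) w (3 : 𝓞 L)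
  have h8 : (3 : L) = algebraMap (𝓞 L) L (3 : 𝓞 L) := (map_ofNat _ 3).symm
  rw [h8, h7, ← h6]
  refine pow_le_pow_right_of_le_one' ?_ hc
  rw [← WithZero.exp_zero, WithZero.exp_le_exp]
  omega

private theorem UnrT_exp {a : ℤᵐ⁰} (h0 : a ≠ 0) (h : a < 1) : a ≤ WithZero.exp (-1 : ℤ) := by
  rw [← WithZero.exp_log h0] at h ⊢
  rw [← WithZero.exp_zero, WithZero.exp_lt_exp] at h
  rw [WithZero.exp_le_exp]
  omega

/-- A subgroup of the Galois group whose elements are determined by the image of a cube root of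
unity has at most two elements. -/
private theorem UnrT_card {M : Type} [Field M] [NumberField M] (I : Subgroup Gal(M/ℚ)) {z : M}
    (hz : IsPrimitiveRoot z 3) (h : ∀ σ ∈ I, σ z = z → σ = 1) : Nat.card I ≤ 2 := by
  classical
  have hmem : ∀ σ : Gal(M/ℚ), σ z ∈ ({z, z ^ 2} : Finset M) := by
    intro σ
    have h1 : IsPrimitiveRoot (σ z) 3 := hz.map_of_injective σ.injective
    obtain ⟨i, hi, hi'⟩ := hz.eq_pow_of_pow_eq_one h1.pow_eq_one
    rw [← hi', Finset.mem_insert, Finset.mem_singleton]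
    interval_cases i
    · exfalso
      rw [pow_zero] at hi'
      exact h1.ne_one (by norm_num) hi'.symm
    · left
      rw [pow_one]
    · right
      rfl
  have hinj : Function.Injective
      (fun σ : I => (⟨(σ : Gal(M/ℚ)) z, hmem σ⟩ : ({z, z ^ 2} : Finset M))) := by
    rintro ⟨σ, hσ⟩ ⟨τ, hτ⟩ hst
    have h1 : σ z = τ z := congrArg Subtype.val hst
    have h2 : (τ⁻¹ * σ) z = z := by
      rw [AlgEquiv.mul_apply, h1, ← AlgEquiv.mul_apply, inv_mul_cancel, AlgEquiv.one_apply]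
    have h3 := h _ (I.mul_mem (I.inv_mem hτ) hσ) h2
    apply Subtype.ext
    exact (inv_mul_eq_one.1 h3).symm
  refine (Nat.card_le_card_of_injective _ hinj).trans ?_
  rw [Nat.card_eq_fintype_card, Fintype.card_coe]
  exact Finset.card_le_two

theorem tUnrT : S_UnrT := by
  intro M hfd hM hzM P hP hPb h3P hI x hxL hxM
  have : P.IsPrime := hP
  by_cases hx0 : x = 0
  · rw [hx0, zero_pow two_ne_zero, zero_div]
    exact DI.VP.zero
  have hNF : NumberField M := NumberField.mk
  have hN0 : @Normal ℚ M _ _ (IntermediateField.algebra' M) := by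
    rw [IntermediateField.normal_iff_forall_map_le']
    rintro σ _ ⟨y, hy, rfl⟩
    exact hM σ y hy
  have hN : Normal ℚ M := by
    convert hN0
    exact Subsingleton.elim _ _
  have hG : IsGalois ℚ M := ⟨⟩
  -- the prime `w`
  have h3Z : (3 : ZZ) ∈ P := by
    have h1 := (DI.MP.nat_iff (P := P) 3).1 (by exact_mod_cast h3P)
    exact_mod_cast h1
  have hwp : (P.comap (iO M)).IsPrime := Ideal.comap_isPrime _ _
  have h3w : (3 : 𝓞 M) ∈ P.comap (iO M) := by
    rw [Ideal.mem_comap, map_ofNat]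
    exact h3Z
  have hwb : P.comap (iO M) ≠ ⊥ := by
    intro h
    rw [h, Ideal.mem_bot] at h3w
    have h1 := congrArg (fun t : 𝓞 M => ((t : M) : Om)) h3w
    exact (three_ne_zero : (3 : Om) ≠ 0) h1
  let w : HeightOneSpectrum (𝓞 M) := ⟨P.comap (iO M), hwp, hwb⟩
  let z : M := ⟨zet 3, hzM⟩
  have hz : IsPrimitiveRoot z 3 := IsPrimitiveRoot.of_map_of_injective (f := algebraMap M Om)
    zet3_prim (algebraMap M Om).injective
  have hin : ∀ σ ∈ w.asIdeal.inertia Gal(M/ℚ), σ z = z → σ = 1 := by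
    intro σ hσ hσz
    let σ' : Gal(Om/ℚ) := σ.liftNormal Om
    have hσ' : ∀ z : M, σ' (z : Om) = ((σ z : M) : Om) := fun z =>
      σ.liftNormal_commutes Om z
    obtain ⟨τ, hτ, hτL⟩ := tEIne M P hP σ' (by
      intro y hy
      have hyi : IsIntegral ℤ (⟨(y : Om), hy⟩ : M) := by
        have h1 : IsIntegral ℤ (y : Om) := y.2
        exact (isIntegral_algHom_iff ((algebraMap M Om).toIntAlgHom)
          (algebraMap M Om).injective).1 h1
      let z : 𝓞 M := ⟨⟨(y : Om), hy⟩, hyi⟩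
      have h3 : iO M (σ • z - z) = σ' • y - y := by
        apply Subtype.ext
        rw [map_sub]
        change ((iO M (σ • z) : ZZ) : Om) - ((iO M z : ZZ) : Om) = σ' (y : Om) - (y : Om)
        rw [show (y : Om) = (((⟨(y : Om), hy⟩ : M)) : Om) from rfl, hσ']
        rfl
      rw [← h3]
      exact hσ z)
    have hτz : τ (zet 3) = zet 3 := by
      rw [hτL _ hzM, show (zet 3 : Om) = ((z : M) : Om) from rfl, hσ' z, hσz]
    apply AlgEquiv.ext
    intro y
    apply Subtype.ext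
    rw [← hσ' y, ← hτL y y.2]
    exact hI τ hτ hτz y y.2
  have hw3 := UnrT_three M w h3w (UnrT_card _ hz hin)
  have hfrac : ∀ (z : M) (a d : 𝓞 M),
      z * algebraMap (𝓞 M) M d = algebraMap (𝓞 M) M a →
      ((z : M) : Om) * ((iO M d : ZZ) : Om) = ((iO M a : ZZ) : Om) := by
    intro z a d h
    exact congrArg (fun t : M => (t : Om)) h
  have hVP : ∀ z : M, w.valuation M z ≤ 1 → VP P (z : Om) := by
    intro z hz
    obtain ⟨a, d, hd⟩ := w.exists_primeCompl_mul_eq_of_integer z hz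
    exact ⟨iO M a, iO M d, fun h => d.2 h, hfrac z a d hd⟩
  set y : M := ⟨x, hxL⟩ with hy
  have hy0 : y ≠ 0 := fun h => hx0 (congrArg Subtype.val h)
  have hv0 : w.valuation M y ≠ 0 := (Valuation.ne_zero_iff _).2 hy0
  have h1 : w.valuation M y < 1 := by
    by_contra hcon
    rw [not_lt] at hcon
    have h3 : w.valuation M y⁻¹ ≤ 1 := by
      rw [map_inv₀]
      exact inv_le_one_of_one_le₀ hcon
    have h4 : VP P x⁻¹ := hVP y⁻¹ h3
    have h5 := DI.MP.mul_left h4 hxM
    rw [inv_mul_cancel₀ hx0] at h5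
    exact DI.MP.one_not h5
  have h3 := UnrT_exp hv0 h1
  have h4 : w.valuation M (y ^ 2 / 3) ≤ 1 := by
    rw [map_div₀, map_pow]
    exact div_le_one_of_le₀ ((pow_le_pow_left' h3 2).trans hw3) bot_le
  have h5 := hVP (y ^ 2 / 3) h4
  exact h5

end Pool.Agent.DT.GL
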