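import Pool.Agent.Lib.DT.GL.Spec

/-!
# Theorem DT, part GL: `L_N = L(ζ)`
-/

set_option autoImplicit false

open scoped Pointwise

noncomputable section

namespace Pool.Agent.DT.GL

open Pool.Agent.MuZ Pool.Agent.FW
open Pool.Agent.DI (VP MP UP TP)
open Pool.Agent.DI.GL (Fx StP mem_of_Fx Fx.mul Fx.inv Fx.one)

/-- The sums `∑ i < n, ζ ^ i * a i` with coefficients in `L`. -/
private def D2S (L : IntermediateField ℚ Om) (n : ℕ) (ζ x : Om) : Prop :=
  ∃ a : ℕ → Om, (∀ i, a i ∈ L) ∧ x = ∑ i ∈ Finset.range n, ζ ^ i * a i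

private theorem D2_add {L : IntermediateField ℚ Om} {n : ℕ} {ζ x y : Om} (hx : D2S L n ζ x)
    (hy : D2S L n ζ y) : D2S L n ζ (x + y) := by
  obtain ⟨a, ha, rfl⟩ := hx
  obtain ⟨b, hb, rfl⟩ := hy
  refine ⟨fun i => a i + b i, fun i => add_mem (ha i) (hb i), ?_⟩
  rw [← Finset.sum_add_distrib]
  exact Finset.sum_congr rfl fun i _ => (mul_add _ _ _).symm

private theorem D2_mon {L : IntermediateField ℚ Om} {n : ℕ} {ζ : Om} (hn : 0 < n) (hz : ζ ^ n ∈ L)
    (k : ℕ) {c : Om} (hc : c ∈ L) : D2S L n ζ (c * ζ ^ k) := by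
  refine ⟨fun i => if i = k % n then c * (ζ ^ n) ^ (k / n) else 0, fun i => ?_, ?_⟩
  · change (if i = k % n then c * (ζ ^ n) ^ (k / n) else 0) ∈ L
    by_cases h : i = k % n
    · rw [if_pos h]
      exact mul_mem hc (pow_mem hz _)
    · rw [if_neg h]
      exact zero_mem _
  · rw [Finset.sum_eq_single (k % n)]
    · change _ = ζ ^ (k % n) * (if k % n = k % n then c * (ζ ^ n) ^ (k / n) else 0)
      rw [if_pos rfl]
      conv_lhs => rw [← Nat.mod_add_div k n, pow_add, pow_mul]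
      ring
    · intro i _ hi
      change ζ ^ i * (if i = k % n then c * (ζ ^ n) ^ (k / n) else 0) = 0
      rw [if_neg hi, mul_zero]
    · intro h
      exact absurd (Finset.mem_range.2 (Nat.mod_lt k hn)) h

/-- **D2.** `L_N = L(ζ)`. -/
theorem tD2 : S_D2 := by
  intro L LN P hS N hN ζ hζ ρ hρ
  have hn : 0 < 3 ^ (N - 1) := by positivity
  have hz : ζ ^ 3 ^ (N - 1) ∈ L := by
    have h1 : (ζ ^ 3 ^ (N - 1)) ^ 3 = 1 := by
      rw [← pow_mul, ← pow_succ]
      have h2 : N - 1 + 1 = N := by omega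
      rw [h2]
      exact hζ.pow_eq_one
    obtain ⟨i, _, hi⟩ := zet3_prim.eq_pow_of_pow_eq_one h1
    rw [← hi]
    exact pow_mem hS.mu i
  have hmem : ρ ∈ (IntermediateField.adjoin L {ζ}).restrictScalars ℚ := by
    refine mem_of_Fx fun τ hτ => ?_
    refine ((hS.lnx N ζ hN hζ τ).2 ⟨fun x hx => ?_, ?_⟩) ρ hρ
    · refine hτ x ?_
      rw [IntermediateField.mem_restrictScalars]
      exact (IntermediateField.adjoin L {ζ}).algebraMap_mem ⟨x, hx⟩
    · refine hτ ζ ?_
      rw [IntermediateField.mem_restrictScalars]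
      exact IntermediateField.mem_adjoin_simple_self L ζ
  rw [IntermediateField.mem_restrictScalars] at hmem
  have hint : IsIntegral L ζ := by
    refine ⟨Polynomial.X ^ 3 ^ N - 1, Polynomial.monic_X_pow_sub_C 1 (by positivity), ?_⟩
    rw [Polynomial.eval₂_sub, Polynomial.eval₂_X_pow, Polynomial.eval₂_one, hζ.pow_eq_one, sub_self]
  have hmem2 : ρ ∈ Algebra.adjoin L {ζ} := by
    rw [← IntermediateField.adjoin_simple_toSubalgebra_of_isAlgebraic hint.isAlgebraic]
    exact hmem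
  rw [Algebra.adjoin_singleton_eq_range_aeval] at hmem2
  obtain ⟨p, rfl⟩ := hmem2
  change D2S L (3 ^ (N - 1)) ζ (Polynomial.aeval ζ p)
  clear hρ hmem
  induction p using Polynomial.induction_on' with
  | add p q hp hq =>
    rw [map_add]
    exact D2_add hp hq
  | monomial k c =>
    rw [Polynomial.aeval_monomial]
    exact D2_mon hn hz k c.2

end Pool.Agent.DT.GL
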