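import Pool.Agent.Lib.DT.GL.Spec

/-!
# Theorem DT, part GL, module Dad (helper87): additivity of `w ↦ s w / w - 1` modulo `3`

Port of `DK/GL/Dad.lean`.
-/

set_option autoImplicit false

open scoped Pointwise

noncomputable section

namespace Pool.Agent.DT.GL

open Pool.Agent.MuZ Pool.Agent.FW
open Pool.Agent.DI (VP MP UP TP)
open Pool.Agent.DI.GL (Fx StP mem_of_Fx Fx.mul Fx.inv Fx.one)

/-- One step: the product of two elements. -/
private theorem Dad_mul {P : Ideal ZZ} (hP : P.IsPrime) (s : Gal(Om/ℚ)) {w w' a a' : Om}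
    (h0 : w ≠ 0) (h0' : w' ≠ 0) (h : TP P lam (s w / w - 1)) (h' : TP P lam (s w' / w' - 1))
    (h3 : TP P 3 ((s w / w - 1) - a)) (h3' : TP P 3 ((s w' / w' - 1) - a')) :
    TP P lam (s (w * w') / (w * w') - 1) ∧ TP P 3 ((s (w * w') / (w * w') - 1) - (a + a')) := by
  have := hP
  have e : s (w * w') / (w * w') - 1 =
      (s w / w - 1) + (s w' / w' - 1) + (s w / w - 1) * (s w' / w' - 1) := by
    rw [map_mul]
    field_simp
    ring
  have hp : TP P (lam ^ 2) ((s w / w - 1) * (s w' / w' - 1)) := by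
    rw [sq]
    exact tp_prod2 h h'
  have hp3 : TP P 3 ((s w / w - 1) * (s w' / w' - 1)) := tp3_iff.2 hp
  refine ⟨?_, ?_⟩
  · rw [e]
    exact tp_add (tp_add h h') (tp_trans hp3 three_lam)
  · rw [e]
    have e2 : (s w / w - 1) + (s w' / w' - 1) + (s w / w - 1) * (s w' / w' - 1) - (a + a') =
        ((s w / w - 1) - a) + ((s w' / w' - 1) - a') + (s w / w - 1) * (s w' / w' - 1) := by ring
    rw [e2]
    exact tp_add (tp_add h3 h3') hp3

private theorem Dad_pow {P : Ideal ZZ} (hP : P.IsPrime) (s : Gal(Om/ℚ)) {w : Om}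
    (h0 : w ≠ 0) (h : TP P lam (s w / w - 1)) (c : ℕ) :
    TP P lam (s (w ^ c) / w ^ c - 1) ∧ TP P 3 ((s (w ^ c) / w ^ c - 1) - c * (s w / w - 1)) := by
  have := hP
  induction c with
  | zero =>
    rw [pow_zero, map_one, div_one, sub_self, Nat.cast_zero, zero_mul, sub_zero]
    exact ⟨tp_zero _, tp_zero _⟩
  | succ c ih =>
    have h1 := Dad_mul hP s (pow_ne_zero c h0) h0 ih.1 h ih.2
      (show TP P 3 ((s w / w - 1) - (s w / w - 1)) by rw [sub_self]; exact tp_zero _)
    rw [pow_succ]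
    refine ⟨h1.1, ?_⟩
    have e : ((c + 1 : ℕ) : Om) * (s w / w - 1) = c * (s w / w - 1) + (s w / w - 1) := by
      push_cast
      ring
    rw [e]
    exact h1.2

theorem tDad : S_Dad := by
  classical
  intro P hP _ s ι D u c hu
  have := hP
  have key : (∏ v ∈ D, u v ^ c v) ≠ 0 ∧
      TP P lam (s (∏ v ∈ D, u v ^ c v) / (∏ v ∈ D, u v ^ c v) - 1) ∧
      TP P 3 ((s (∏ v ∈ D, u v ^ c v) / (∏ v ∈ D, u v ^ c v) - 1) -
        ∑ v ∈ D, (c v : Om) * (s (u v) / u v - 1)) := by
    induction D using Finset.induction_on with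
    | empty =>
      rw [Finset.prod_empty, Finset.sum_empty, map_one, div_one, sub_self, sub_zero]
      exact ⟨one_ne_zero, tp_zero _, tp_zero _⟩
    | insert a D ha ih =>
      have ih' := ih (fun v hv => hu v (Finset.mem_insert_of_mem hv))
      obtain ⟨h0, h2⟩ := hu a (Finset.mem_insert_self a D)
      have h3 := Dad_pow hP s h0 h2 (c a)
      have h4 := Dad_mul hP s (pow_ne_zero (c a) h0) ih'.1 h3.1 ih'.2.1 h3.2 ih'.2.2
      rw [Finset.prod_insert ha, Finset.sum_insert ha]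
      exact ⟨mul_ne_zero (pow_ne_zero (c a) h0) ih'.1, h4⟩
  exact key.2.2

end Pool.Agent.DT.GL
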