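import Pool.Agent.Lib.DT.GL.Spec

set_option autoImplicit false

/-! # Abstract tower, p = 3, module G4: `s r - r` is in `lam V_P` -/

open scoped Pointwise

noncomputable section

namespace Pool.Agent.DT.GL

open Pool.Agent.MuZ Pool.Agent.FW
open Pool.Agent.DI (VP MP UP TP)
open Pool.Agent.DI.GL (Fx StP mem_of_Fx Fx.mul Fx.inv Fx.one)

private theorem G4_pow (P : Ideal ZZ) (hP : P.IsPrime) (m : ℕ) : TP P lam (zet 3 ^ m - 1) := by
  have := hP
  refine ⟨-∑ l ∈ Finset.range m, zet 3 ^ l, DI.VP.neg (DI.VP.sum _ _ fun l _ =>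
    DI.VP.pow zet3_vp l), ?_⟩
  rw [← mul_geom_sum]
  unfold lam
  ring

private theorem G4_lam (P : Ideal ZZ) (hP : P.IsPrime) (K : ℕ) (x : Om) (h : VP P (3 ^ K * x)) :
    VP P (lam ^ (2 * K) * x) := by
  have := hP
  have e : lam ^ (2 * K) * x = (-zet 3) ^ K * (3 ^ K * x) := by
    rw [pow_mul, lam_sq, ← mul_assoc, ← mul_pow]
    ring
  rw [e]
  exact DI.VP.mul (DI.VP.pow (DI.VP.neg zet3_vp) K) h

/-- `s r - r` is in `lam V_P`. -/
theorem tG4 : S_G4 := by
  intro hA hX hU hD L LN P hS N hN s hs r hr hv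
  classical
  have hP := hS.prime
  have h3 := hS.three
  have hζ : IsPrimitiveRoot (zet (3 ^ N)) (3 ^ N) := zet_prim _ (pow_pos (by norm_num) N)
  obtain ⟨a, haL, hra⟩ := hD L LN P hS N (by omega) (zet (3 ^ N)) hζ r hr
  set ζ := zet (3 ^ N) with hζd
  -- a bound for the denominators
  have hb : ∃ K, ∀ i < 3 ^ (N - 1), VP P (lam ^ K * a i) := by
    choose k hk using fun i => (hA P hP h3).1 (a i)
    refine ⟨2 * ∑ i ∈ Finset.range (3 ^ (N - 1)), k i, fun i hi => ?_⟩
    refine G4_lam P hP _ _ ?_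
    have hle : k i ≤ ∑ i ∈ Finset.range (3 ^ (N - 1)), k i :=
      Finset.single_le_sum (fun _ _ => Nat.zero_le _) (Finset.mem_range.2 hi)
    obtain ⟨c, hc⟩ := Nat.exists_eq_add_of_le hle
    rw [hc, pow_add, mul_comm ((3 : Om) ^ k i), mul_assoc]
    refine DI.VP.mul ?_ (hk i)
    have h := DI.VP.nat (P := P) (3 ^ c)
    push_cast at h
    exact h
  have hlamL : lam ∈ L := L.sub_mem L.one_mem hS.mu
  have hstep : ∀ k, (∀ i < 3 ^ (N - 1), VP P (lam ^ (k + 1) * a i)) →
      ∀ i < 3 ^ (N - 1), VP P (lam ^ k * a i) := by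
    intro k hk i hi
    have h1 := hU P hP h3 L N ζ (by omega) hζ hS.tam
      (fun c => if c < 3 ^ (N - 1) then lam ^ (k + 1) * a c else 0) (fun c => by
        split_ifs
        · exact L.mul_mem (pow_mem hlamL _) (haL c)
        · exact L.zero_mem) (fun c => by
        split_ifs with hc
        · exact hk c hc
        · exact DI.VP.zero) ?_ i hi
    · rw [if_pos hi] at h1
      obtain ⟨y, hy, hye⟩ := h1
      have e : lam ^ k * a i = y := by
        apply mul_left_cancel₀ lam_ne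
        rw [← hye]
        ring
      rw [e]
      exact hy
    · have e : ∑ c ∈ Finset.range (3 ^ (N - 1)),
          ζ ^ c * (if c < 3 ^ (N - 1) then lam ^ (k + 1) * a c else 0) = lam * (lam ^ k * r) := by
        rw [hra, Finset.mul_sum, Finset.mul_sum]
        refine Finset.sum_congr rfl fun c hc => ?_
        rw [if_pos (Finset.mem_range.1 hc)]
        ring
      exact ⟨lam ^ k * r, DI.VP.mul (DI.VP.pow lam_vp k) hv, e⟩
  have hall : ∀ i < 3 ^ (N - 1), VP P (a i) := by
    obtain ⟨K, hK⟩ := hb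
    induction K with
    | zero =>
      intro i hi
      have h := hK i hi
      rwa [pow_zero, one_mul] at h
    | succ K ih => exact ih (hstep K hK)
  -- the action of `s`
  have hw : (ζ ^ 3 ^ (N - 1)) ^ 3 = 1 := by
    rw [← pow_mul, ← pow_succ, Nat.sub_add_cancel (by omega)]
    exact hζ.pow_eq_one
  obtain ⟨j, -, hj⟩ := zet3_prim.eq_pow_of_pow_eq_one hw
  have hsr : s r - r = ∑ i ∈ Finset.range (3 ^ (N - 1)),
      ζ ^ i * ((zet 3 ^ (j * i) - 1) * a i) := by
    rw [hra, map_sum, ← Finset.sum_sub_distrib]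
    refine Finset.sum_congr rfl fun i _ => ?_
    rw [map_mul, map_pow, hs.2 ζ hζ, hs.1 _ (haL i), ← hj, pow_mul]
    ring
  rw [hsr]
  refine tp_sum _ _ _ fun i hi => ?_
  refine tp_mul (DI.VP.pow (DI.VP.integral (hζ.isIntegral (pow_pos (by norm_num) N))) i) ?_
  exact tp_mul_right (G4_pow P hP _) (hall i (Finset.mem_range.1 hi))

end Pool.Agent.DT.GL
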