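import Pool.Agent.Lib.DT.GL.Spec

/-!
# Theorem DT, part GL: the local lemma (G8)
-/

set_option autoImplicit false

open scoped Pointwise

noncomputable section

namespace Pool.Agent.DT.GL

open Pool.Agent.MuZ Pool.Agent.FW
open Pool.Agent.DI (VP MP UP TP)
open Pool.Agent.DI.GL (Fx StP mem_of_Fx Fx.mul Fx.inv Fx.one)

theorem tG8 : S_G8 := by
  intro hKap hCpt hA hB L LN P hS N hN s hs w hw hwu hd
  have := hS.prime
  have hN1 : 1 ≤ N := by omega
  have hw0 : w ≠ 0 := hwu.ne_zero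
  have hζ : IsPrimitiveRoot (zet (3 ^ N)) (3 ^ N) := zet_prim _ (by positivity)
  obtain ⟨r0, hr0⟩ := IsAlgClosed.exists_pow_nat_eq w (show 0 < 3 by norm_num)
  -- elements of `DD` fix `r0`
  have h1 : ∀ d : Gal(Om/ℚ), DD LN P d → d r0 = r0 := by
    intro d h
    have hF : Fx (LN N) d := h.2 N hN1
    have hL : Fx L d := ((hS.lnx N _ hN1 hζ d).1 hF).1
    exact (hKap.1 w r0 d hw0 hr0 (hF w hw) (hL _ hS.mu)).1 (hd d h)
  obtain ⟨m0, hm0⟩ := hCpt L LN P hS r0 h1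
  have hm : ∀ d : Gal(Om/ℚ), DL L P (max m0 N) d → kap w d = 0 := by
    intro d h
    have h2 : d r0 = r0 := hm0 _ (le_max_left _ _) d h
    have h3 : d w = w := by rw [← hr0, map_pow, h2]
    exact (hKap.1 w r0 d hw0 hr0 h3 (h.2.1 _ hS.mu)).2 h2
  obtain ⟨j, hj⟩ := hA L LN P hS N hN1 _ hζ w hw hw0 _ hm
  obtain ⟨r, hr⟩ := IsAlgClosed.exists_pow_nat_eq (w * zet (3 ^ N) ^ j) (show 0 < 3 by norm_num)
  exact hB L LN P hS N hN s hs _ hζ w hw hwu j r hr (hj r hr)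

end Pool.Agent.DT.GL
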