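import Pool.Agent.Lib.DT.GL.Spec

/-!
# DT, part GL, module G8a: the Kummer character of `w` on `D_P ∩ Gal(Om/L_N)` (helper47)

Adapted from `DK/GL/G8a.lean`.
-/

set_option autoImplicit false

open scoped Pointwise

noncomputable section

namespace Pool.Agent.DT.GL

open Pool.Agent.MuZ Pool.Agent.FW
open Pool.Agent.DI (VP MP UP TP)
open Pool.Agent.DI.GL (Fx StP mem_of_Fx Fx.mul Fx.inv Fx.one)

private theorem G8a_mono {L : IntermediateField ℚ Om} {P : Ideal ZZ} {m m' : ℕ} (h : m ≤ m')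
    {d : Gal(Om/ℚ)} (hd : DL L P m' d) : DL L P m d :=
  ⟨hd.1, hd.2.1, fun z hz => hd.2.2 z (by
    obtain ⟨k, rfl⟩ := Nat.exists_eq_add_of_le h
    rw [pow_add, pow_mul, hz, one_pow])⟩

private theorem G8a_z0 {N m : ℕ} (hN : 1 ≤ N) (hm : N ≤ m) {ζ : Om}
    (hζ : IsPrimitiveRoot ζ (3 ^ N)) :
    ∃ z0 : Om, IsPrimitiveRoot z0 (3 ^ m) ∧ z0 ^ 3 ^ (m - N) = ζ := by
  obtain ⟨z0, hz0⟩ := IsAlgClosed.exists_pow_nat_eq ζ (n := 3 ^ (m - N)) (by positivity)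
  refine ⟨z0, ?_, hz0⟩
  obtain ⟨n, rfl⟩ : ∃ n, m = n + 1 := ⟨m - 1, by omega⟩
  obtain ⟨k, rfl⟩ : ∃ k, N = k + 1 := ⟨N - 1, by omega⟩
  have : Fact (Nat.Prime 3) := ⟨Nat.prime_three⟩
  have e1 : z0 ^ 3 ^ n = ζ ^ 3 ^ k := by
    rw [← hz0, ← pow_mul, ← pow_add]
    congr 2
    omega
  have e2 : z0 ^ 3 ^ (n + 1) = 1 := by
    rw [pow_succ, pow_mul, e1, ← pow_mul, ← pow_succ]
    exact hζ.pow_eq_one
  have e3 : ¬ z0 ^ 3 ^ n = 1 := by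
    rw [e1]
    intro h
    have h1 := (hζ.pow_eq_one_iff_dvd _).1 h
    have h2 := (Nat.pow_dvd_pow_iff_le_right (x := 3) (by norm_num)).1 h1
    omega
  rw [← orderOf_eq_prime_pow e3 e2]
  exact IsPrimitiveRoot.orderOf z0

private theorem G8a_kap1 (hK : C_Kap) (d : Gal(Om/ℚ)) (h3 : d (zet 3) = zet 3) : kap 1 d = 0 :=
  (hK.1 1 1 d one_ne_zero (one_pow 3) (map_one d) h3).2 (map_one d)

private theorem G8a_kp (hK : C_Kap) {x : Om} {d : Gal(Om/ℚ)} (hx : x ≠ 0) (hdx : d x = x)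
    (h3 : d (zet 3) = zet 3) (n : ℕ) : kap (x ^ n) d = (n : ZMod 3) * kap x d := by
  induction n with
  | zero => rw [pow_zero, G8a_kap1 hK d h3, Nat.cast_zero, zero_mul]
  | succ n ih =>
    rw [pow_succ, hK.2.1 (x ^ n) x d (pow_ne_zero _ hx) hx (by rw [map_pow, hdx]) hdx h3, ih,
      Nat.cast_succ, add_mul, one_mul]

private theorem G8a_kap (hK : C_Kap) {w x : Om} {d : Gal(Om/ℚ)} (hw : w ≠ 0) (hx : x ≠ 0)
    (hdw : d w = w) (hdx : d x = x) (h3 : d (zet 3) = zet 3) (n : ℕ) :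
    kap (w * x ^ n) d = kap w d + (n : ZMod 3) * kap x d := by
  rw [hK.2.1 w (x ^ n) d hw (pow_ne_zero _ hx) hdw (by rw [map_pow, hdx]) h3,
    G8a_kp hK hx hdx h3]

private theorem G8a_fxpow {M : IntermediateField ℚ Om} {σ : Gal(Om/ℚ)} (h : Fx M σ) (n : ℕ) :
    Fx M (σ ^ n) := by
  induction n with
  | zero => rw [pow_zero]; exact Fx.one
  | succ n ih => rw [pow_succ]; exact ih.mul h

private theorem G8a_kpow (hK : C_Kap) {M : IntermediateField ℚ Om} {w : Om} {σ : Gal(Om/ℚ)}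
    (hz : zet 3 ∈ M) (h : Fx M σ) (hw : w ∈ M) (hw0 : w ≠ 0) (hk : kap w σ = 0) (n : ℕ) :
    kap w (σ ^ n) = 0 := by
  induction n with
  | zero =>
    rw [pow_zero]
    obtain ⟨r, hr⟩ := IsAlgClosed.exists_pow_nat_eq w (n := 3) (by norm_num)
    exact (hK.1 w r 1 hw0 hr rfl rfl).2 rfl
  | succ n ih =>
    rw [pow_succ, hK.2.2.1 w (σ ^ n) σ hw0 (G8a_fxpow h n w hw) (h w hw) (G8a_fxpow h n _ hz)
      (h _ hz), ih, hk, add_zero]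

private theorem G8a_dec : ∀ a b : ZMod 3, b ≠ 0 → ∃ j : ZMod 3, a + j * b = 0 := by decide

theorem tG8a : S_G8a := by
  intro hIu hSt hK hPw L LN P hS N hN ζ hζ w hw hw0 m₀ hm₀
  have : P.IsPrime := hS.prime
  obtain ⟨m, hmN, hmm⟩ : ∃ m : ℕ, N + 1 ≤ m ∧ m₀ ≤ m := ⟨max (N + 1) m₀, le_max_left _ _,
    le_max_right _ _⟩
  have hkw : ∀ d : Gal(Om/ℚ), DL L P m d → kap w d = 0 := fun d hd => hm₀ d (G8a_mono hmm hd)
  obtain ⟨z0, hz0, hz⟩ := G8a_z0 hN (by omega : N ≤ m) hζ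
  have hz01 : z0 ^ 3 ^ m = 1 := hz0.pow_eq_one
  have hcop : (1 + 3 ^ N).Coprime 3 := by
    refine ((Nat.Prime.coprime_iff_not_dvd Nat.prime_three).2 fun h => ?_).symm
    have h1 : 3 ∣ 1 := (Nat.dvd_add_left (dvd_pow_self 3 (by omega))).1 h
    omega
  obtain ⟨d2, hd2i, hd2⟩ := hIu P hS.prime hS.three m (1 + 3 ^ N) hcop
  have hst := hSt P hS.prime hS.three
  have hs2 : StP P d2 := hst.2.2.1 d2 hd2i
  have hζ0 : ζ ≠ 0 := hζ.ne_zero (by positivity)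
  have hζm : ζ ^ 3 ^ m = 1 := by
    obtain ⟨k, hk⟩ := Nat.exists_eq_add_of_le (by omega : N ≤ m)
    rw [hk, pow_add, pow_mul, hζ.pow_eq_one, one_pow]
  have h3N : zet 3 ^ 3 ^ N = 1 := by
    obtain ⟨k, rfl⟩ := Nat.exists_eq_add_of_le hN
    rw [pow_add, pow_one, pow_mul, zet3_cube, one_pow]
  have h3m : zet 3 ^ 3 ^ m = 1 := by
    obtain ⟨k, hk⟩ := Nat.exists_eq_add_of_le (by omega : N ≤ m)
    rw [hk, pow_add, pow_mul, h3N, one_pow]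
  have hd23 : d2 (zet 3) = zet 3 := by
    rw [hd2 _ h3m, pow_add, pow_one, h3N, mul_one]
  have hd2ζ : d2 ζ = ζ := by
    rw [hd2 ζ hζm, pow_add, pow_one, hζ.pow_eq_one, mul_one]
  have hf2 : Fx (LN N) d2 := (hS.lnx N ζ hN hζ d2).2 ⟨hS.inr d2 hd2i hd23, hd2ζ⟩
  have h3L : zet 3 ∈ LN N :=
    mem_of_Fx fun τ hτ => ((hS.lnx N ζ hN hζ τ).1 hτ).1 _ hS.mu
  have hζL : ζ ∈ LN N := mem_of_Fx fun τ hτ => ((hS.lnx N ζ hN hζ τ).1 hτ).2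
  -- `ζ1`
  obtain ⟨ζ1, hζ1e⟩ : ∃ ζ1 : Om, ζ1 = z0 ^ 3 ^ (m - N - 1) := ⟨_, rfl⟩
  have hζ1 : ζ1 ^ 3 = ζ := by
    rw [hζ1e, ← pow_mul, ← pow_succ, ← hz]
    congr 2
    omega
  have hζ10 : ζ1 ≠ 0 := by rw [hζ1e]; exact pow_ne_zero _ (hz0.ne_zero (by positivity))
  have hζ1N : ζ1 ^ 3 ^ N ≠ 1 := by
    rw [hζ1e, ← pow_mul, ← pow_add]
    intro h
    have h1 := (hz0.pow_eq_one_iff_dvd _).1 h
    have h2 := (Nat.pow_dvd_pow_iff_le_right (x := 3) (by norm_num)).1 h1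
    omega
  have hζ1m : ζ1 ^ 3 ^ m = 1 := by
    rw [hζ1e, ← pow_mul, mul_comm, pow_mul, hz01, one_pow]
  have hkζ : kap ζ d2 ≠ 0 := by
    intro h
    have h1 := (hK.1 ζ ζ1 d2 hζ0 hζ1 hd2ζ hd23).1 h
    rw [hd2 ζ1 hζ1m, pow_add, pow_one] at h1
    exact hζ1N (mul_left_cancel₀ hζ10 (h1.trans (mul_one _).symm))
  obtain ⟨j, hj⟩ := G8a_dec (kap w d2) (kap ζ d2) hkζ
  have hjv : ((j.val : ℕ) : ZMod 3) = j := ZMod.natCast_zmod_val j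
  obtain ⟨w', hw'⟩ : ∃ w' : Om, w' = w * ζ ^ j.val := ⟨_, rfl⟩
  have hw'0 : w' ≠ 0 := by rw [hw']; exact mul_ne_zero hw0 (pow_ne_zero _ hζ0)
  have hw'm : w' ∈ LN N := by
    rw [hw']
    exact mul_mem hw (pow_mem hζL _)
  have q2 : kap w' d2 = 0 := by
    rw [hw', G8a_kap hK hw0 hζ0 (hf2 w hw) hd2ζ hd23, hjv]
    exact hj
  have q3 : ∀ d : Gal(Om/ℚ), DL L P m d → kap w' d = 0 := by
    intro d hd
    have hζd : d ζ = ζ := hd.2.2 ζ hζm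
    have h3d : d (zet 3) = zet 3 := hd.2.2 _ h3m
    have hfd : Fx (LN N) d := (hS.lnx N ζ hN hζ d).2 ⟨hd.2.1, hζd⟩
    rw [hw', G8a_kap hK hw0 hζ0 (hfd w hw) hζd h3d, hkw d hd,
      (hK.1 ζ ζ1 d hζ0 hζ1 hζd h3d).2 (hd.2.2 ζ1 hζ1m), mul_zero, add_zero]
  have hd2z : d2 z0 = z0 ^ (1 + 3 ^ N) := hd2 z0 hz01
  refine ⟨j.val, ?_⟩
  intro r hr d hds hd
  rw [← hw'] at hr
  have h3d : d (zet 3) = zet 3 := hd _ h3L
  refine (hK.1 w' r d hw'0 hr (hd w' hw'm) h3d).1 ?_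
  have hdz : d ζ = ζ := ((hS.lnx N ζ hN hζ d).1 hd).2
  have : NeZero (3 ^ m) := ⟨by positivity⟩
  obtain ⟨c, -, hc⟩ := hz0.eq_pow_of_pow_eq_one (ξ := d z0) (by
    rw [← map_pow, hz01, map_one])
  -- `ζ ^ c = ζ`
  have hζc : ζ ^ c = ζ := by
    have h1 : d ζ = ζ ^ c := by
      rw [← hz, map_pow, ← hc, ← pow_mul, ← pow_mul, mul_comm]
    rw [← h1, hdz]
  have hc1 : c ≡ 1 [MOD 3 ^ N] := by
    have h1 : ζ ^ ((c : ℤ) - 1) = 1 := by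
      rw [zpow_sub₀ hζ0, zpow_natCast, hζc, zpow_one, div_self hζ0]
    have h2 := (hζ.zpow_eq_one_iff_dvd _).1 h1
    refine ((Nat.modEq_iff_dvd).2 ?_).symm
    push_cast at h2 ⊢
    exact h2
  obtain ⟨t, ht⟩ := hPw N hN m c hc1
  have hpow : ∀ t : ℕ, (d2 ^ t) z0 = z0 ^ ((1 + 3 ^ N) ^ t) := by
    intro t
    induction t with
    | zero => rw [pow_zero, pow_zero, pow_one]; rfl
    | succ n ih =>
      rw [pow_succ', AlgEquiv.mul_apply, ih, map_pow, hd2z, ← pow_mul, ← pow_succ']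
  have he : (d2 ^ t) z0 = d z0 := by
    rw [hpow t, ← hc, pow_eq_pow_mod _ hz01, pow_eq_pow_mod c hz01]
    congr 1
    exact ht.symm
  have hft : Fx (LN N) (d2 ^ t) := G8a_fxpow hf2 t
  obtain ⟨g, hg⟩ : ∃ g : Gal(Om/ℚ), g = (d2 ^ t)⁻¹ * d := ⟨_, rfl⟩
  have hgz : g z0 = z0 := by
    rw [hg, AlgEquiv.mul_apply, ← he, ← AlgEquiv.mul_apply, inv_mul_cancel, AlgEquiv.one_apply]
  have hgf : Fx (LN N) g := by rw [hg]; exact hft.inv.mul hd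
  have hDL : DL L P m g := by
    refine ⟨?_, ?_, ?_⟩
    · rw [hst.2.1, hg]
      exact Subgroup.mul_mem _
        (Subgroup.inv_mem _ (Subgroup.pow_mem _ ((hst.2.1 d2).1 hs2) t)) ((hst.2.1 d).1 hds)
    · exact ((hS.lnx N ζ hN hζ g).1 hgf).1
    · intro z hz1
      obtain ⟨j, -, rfl⟩ := hz0.eq_pow_of_pow_eq_one hz1
      rw [map_pow, hgz]
  have hdg : d = d2 ^ t * g := by rw [hg, mul_inv_cancel_left]
  rw [hdg, hK.2.2.1 w' (d2 ^ t) g hw'0 (hft w' hw'm) (hgf w' hw'm) (hft _ h3L) (hgf _ h3L),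
    G8a_kpow hK h3L hf2 hw'm hw'0 q2 t, q3 g hDL, add_zero]

end Pool.Agent.DT.GL
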