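import Pool.Agent.Lib.DT.GL.Spec

/-!
# Theorem DT, part GL, module G8b: the local lemma, second step
-/

set_option autoImplicit false

open scoped Pointwise

noncomputable section

namespace Pool.Agent.DT.GL

open Pool.Agent.MuZ Pool.Agent.FW
open Pool.Agent.DI (VP MP UP TP)
open Pool.Agent.DI.GL (Fx StP mem_of_Fx Fx.mul Fx.inv Fx.one)

/-- Cube roots of unity are `1 + n λ` modulo `3`. -/
private theorem G8b_root {P : Ideal ZZ} [P.IsPrime] {q : Om} (hq : q ^ 3 = 1) :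
    ∃ n : ℕ, TP P 3 (q - 1 - n * (1 - zet 3)) := by
  obtain ⟨i, hi, hiq⟩ := zet3_prim.eq_pow_of_pow_eq_one hq
  interval_cases i
  · refine ⟨0, 0, DI.VP.zero, ?_⟩
    rw [← hiq]
    push_cast
    ring
  · refine ⟨2, -lam, lam_vp.neg, ?_⟩
    rw [← hiq, lam]
    push_cast
    ring
  · refine ⟨1, -1, DI.VP.one.neg, ?_⟩
    rw [← hiq, zet3_sq]
    push_cast
    ring

/-- The cube of `1 + λ y`. -/
private theorem G8b_cube {P : Ideal ZZ} [P.IsPrime] {y : Om} (hy : VP P y) :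
    ∃ E : Om, VP P E ∧ (1 + lam * y) ^ 3 = 1 + 3 * E := by
  refine ⟨lam * y + lam ^ 2 * y ^ 2 - zet 3 * (lam * y ^ 3), ?_, ?_⟩
  · exact ((lam_vp.mul hy).add ((lam_vp.pow 2).mul (hy.pow 2))).sub
      (zet3_vp.mul (lam_vp.mul (hy.pow 3)))
  · have h := lam_sq
    linear_combination (lam * y ^ 3) * h

theorem tG8b : S_G8b := by
  intro hI hApp hG4 L LN P hS N hN s hs ζ hζ w hw hwU j r hr hinv
  have hP : P.IsPrime := hS.prime
  obtain ⟨M, rfl⟩ : ∃ M, N = M + 2 := ⟨N - 2, by omega⟩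
  have hN1 : M + 2 - 1 = M + 1 := by omega
  have h1N : 1 ≤ M + 2 := by omega
  -- the fields
  have hz3 : zet 3 ∈ LN (M + 2) := mem_of_Fx fun τ hτ =>
    ((hS.lnx (M + 2) ζ h1N hζ τ).1 hτ).1 _ hS.mu
  have hζL : ζ ∈ LN (M + 2) := mem_of_Fx fun τ hτ => ((hS.lnx (M + 2) ζ h1N hζ τ).1 hτ).2
  have hrL : r ^ 3 ∈ LN (M + 2) := by
    rw [hr]
    exact mul_mem hw (pow_mem hζL j)
  obtain ⟨r', hr'L, y, hy, hry⟩ := hApp (LN (M + 2)) P hP hS.three hz3 r hrL hinv 2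
  have hζ0 : ζ ≠ 0 := hζ.ne_zero (pow_ne_zero _ (by norm_num))
  have hζU : UP P ζ := by
    refine DI.UP.of_pow (n := 3 ^ (M + 2)) (by positivity) ?_
    rw [hζ.pow_eq_one]
    exact DI.UP.one
  have hrU : UP P r := by
    refine DI.UP.of_pow (n := 3) (by norm_num) ?_
    rw [hr]
    exact hwU.mul (hζU.pow j)
  have h3V : VP P (3 : Om) := by exact_mod_cast DI.VP.nat (P := P) 3
  have h9V : VP P ((3 : Om) ^ 2) := h3V.pow 2
  have hVr' : VP P r' := by
    have h1 : r' = r - 3 ^ 2 * y := by linear_combination -hry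
    rw [h1]
    exact hrU.1.sub (h9V.mul hy)
  -- the element of the inertia group
  have hcop : (1 + 3 ^ (M + 1)).Coprime 3 := by
    rw [pow_succ, mul_comm, Nat.coprime_add_mul_left_left]
    norm_num
  obtain ⟨ι, hι, hιz⟩ := hI P hP hS.three (M + 2) (1 + 3 ^ (M + 1)) hcop
  have hι3 : ι (zet 3) = zet 3 := by
    have h1 : zet 3 ^ 3 ^ (M + 2) = 1 := by
      rw [pow_succ, mul_comm, pow_mul, zet3_cube, one_pow]
    rw [hιz _ h1, pow_add, pow_one, pow_succ, mul_comm (3 ^ M) 3, pow_mul, zet3_cube, one_pow,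
      mul_one]
  have hιL : Fx L ι := hS.inr ι hι hι3
  have hιζ : ι ζ = ζ * ζ ^ 3 ^ (M + 1) := by
    rw [hιz ζ hζ.pow_eq_one, pow_add, pow_one]
  have hsζ : s ζ = ζ * ζ ^ 3 ^ (M + 1) := by
    have h1 := hs.2 ζ hζ
    rwa [hN1] at h1
  have hfx : Fx (LN (M + 2)) (s⁻¹ * ι) := by
    refine (hS.lnx (M + 2) ζ h1N hζ (s⁻¹ * ι)).2 ⟨(Fx.inv hs.1).mul hιL, ?_⟩
    rw [AlgEquiv.mul_apply, hιζ, ← hsζ, ← AlgEquiv.mul_apply, inv_mul_cancel, AlgEquiv.one_apply]
  have heq : ∀ x ∈ LN (M + 2), ι x = s x := by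
    intro x hx
    have h1 := hfx x hx
    have h2 := congrArg (fun t => s t) h1
    simp only [AlgEquiv.mul_apply] at h2
    rw [← AlgEquiv.mul_apply s, mul_inv_cancel, AlgEquiv.one_apply] at h2
    exact h2
  -- `ι r - r` is in `lam V_P`
  have hG := hG4 L LN P hS (M + 2) hN s hs r' hr'L hVr'
  have hιy : VP P (ι y) := DI.VP.inertia_vp hι hy
  have hd : TP P lam (ι r - r) := by
    have h1 : ι r - r = (s r' - r') + 3 * (3 * (ι y - y)) := by
      have h2 : r = r' + 3 ^ 2 * y := by linear_combination hry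
      have h3 : ι (3 : Om) = 3 := map_ofNat ι 3
      rw [h2, map_add, map_mul, map_pow, h3, heq r' hr'L]
      ring
    rw [h1]
    exact tp_add hG (tp_mul_right three_lam (h3V.mul (hιy.sub hy)))
  obtain ⟨y₀, hy₀, hd'⟩ := hd
  have hr0 : r ≠ 0 := hrU.ne_zero
  have hVy' : VP P (y₀ / r) := by
    rw [div_eq_mul_inv]
    exact hy₀.mul hrU.inv.1
  obtain ⟨E, hE, hcube⟩ := G8b_cube hVy'
  have hιr : ι r = r * (1 + lam * (y₀ / r)) := by
    field_simp
    linear_combination hd'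
  have hw0 : w ≠ 0 := hwU.ne_zero
  set v : Om := ζ ^ 3 ^ (M + 1) with hv
  have hv3 : v ^ 3 = 1 := by
    rw [hv, ← pow_mul, ← pow_succ]
    exact hζ.pow_eq_one
  have hmain : s w / w * v ^ j = 1 + 3 * E := by
    have h1 : ι (r ^ 3) = s w * (ζ * v) ^ j := by
      rw [hr, map_mul, map_pow, hιζ, heq w hw]
    have h2 : ι (r ^ 3) = w * ζ ^ j * (1 + 3 * E) := by
      rw [map_pow, hιr, mul_pow, hcube, hr]
    rw [h1, mul_pow] at h2
    have h3 : w * ζ ^ j ≠ 0 := mul_ne_zero hw0 (pow_ne_zero j hζ0)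
    apply mul_left_cancel₀ h3
    rw [← h2]
    field_simp
  have hq3 : (v ^ (2 * j)) ^ 3 = 1 := by
    rw [← pow_mul, mul_comm, pow_mul, hv3, one_pow]
  have hvj : v ^ j * v ^ (2 * j) = 1 := by
    rw [← pow_add, show j + 2 * j = 3 * j by ring, pow_mul, hv3, one_pow]
  have hsw : s w / w - v ^ (2 * j) = 3 * (E * v ^ (2 * j)) := by
    linear_combination v ^ (2 * j) * hmain - (s w / w) * hvj
  have hVv : VP P (v ^ (2 * j)) := by
    refine DI.VP.of_pow (n := 3) (by norm_num) ?_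
    rw [hq3]
    exact DI.VP.one
  obtain ⟨n, hn⟩ := G8b_root (P := P) hq3
  refine ⟨n, ?_⟩
  have h1 : s w / w - 1 - n * (1 - zet 3) =
      3 * (E * v ^ (2 * j)) + (v ^ (2 * j) - 1 - n * (1 - zet 3)) := by
    rw [← hsw]
    ring
  rw [h1]
  exact tp_add ⟨_, hE.mul hVv, rfl⟩ hn

end Pool.Agent.DT.GL
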