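import Pool.Agent.Lib.DT.GL.Spec

/-!
# Theorem DT, part GL, G9: passage from `kap` to the sum over `D`
-/

set_option autoImplicit false

open scoped Pointwise

noncomputable section

namespace Pool.Agent.DT.GL

open Pool.Agent.MuZ Pool.Agent.FW
open Pool.Agent.DI (VP MP UP TP)
open Pool.Agent.DI.GL (Fx StP mem_of_Fx Fx.mul Fx.inv Fx.one)

private theorem G9_div {P : Ideal ZZ} [hP : P.IsPrime] {t x w : Om} (hw : UP P w)
    (h : TP P t (x - w)) : TP P t (x / w - 1) := by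
  obtain ⟨y, hy, hxy⟩ := h
  have h0 : w ≠ 0 := DI.UP.ne_zero hw
  refine ⟨y * w⁻¹, DI.VP.mul hy (DI.VP.inv hw.1 hw.2), ?_⟩
  have h1 : x / w - 1 = (x - w) * w⁻¹ := by
    field_simp
  rw [h1, hxy]
  ring

/-- The decomposition of a sum over `D`. -/
private theorem G9_split {ι : Type} {n : ℕ} (D : Finset ι) (χ : ι → Om) (b : Fin n → ι) (c : Fin n → ι → ℕ)
    (C : ι → Om) : ∑ v ∈ D, χ v * C v =
      ∑ v ∈ D, (χ v - ∑ i, (c i v : Om) * χ (b i)) * C v +
        ∑ i, χ (b i) * ∑ v ∈ D, (c i v : Om) * C v := by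
  have h1 : ∑ i, χ (b i) * ∑ v ∈ D, (c i v : Om) * C v =
      ∑ v ∈ D, (∑ i, (c i v : Om) * χ (b i)) * C v := by
    simp only [Finset.mul_sum, Finset.sum_mul]
    rw [Finset.sum_comm]
    refine Finset.sum_congr rfl fun v _ => Finset.sum_congr rfl fun i _ => ?_
    ring
  rw [h1, ← Finset.sum_add_distrib]
  refine Finset.sum_congr rfl fun v _ => ?_
  ring

/-- **G9.** -/
theorem tG9 : S_G9 := by
  intro hKap hRR hLin hDad hG4 hG8 L LN P hS N hN s hs ι D u hu χ m hm hχ hk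
  have hP : P.IsPrime := hS.prime
  have h3 : MP P 3 := hS.three
  have hN1 : 1 ≤ N := by omega
  have hm0 : 0 < m := by
    rcases Nat.eq_zero_or_pos m with h | h
    · rw [h] at hm
      norm_num at hm
    · exact h
  have hV : ∀ v, VP P (χ v) := by
    intro v
    rcases hχ v with h | h
    · rw [h]
      exact DI.VP.zero
    · refine DI.VP.of_pow hm0 ?_
      rw [h]
      exact DI.VP.one
  obtain ⟨n, b, c, hind, hc⟩ := hLin P hP h3 ι χ hV D
  have hρ : ∀ v ∈ D, TP P 3 (χ v - ∑ i, (c i v : Om) * χ (b i)) := by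
    intro v hv
    refine hRR ι χ m hm hχ P hP h3 _ ?_ (hc v hv)
    refine sub_mem (Algebra.subset_adjoin ⟨v, rfl⟩) (sum_mem fun i _ => ?_)
    exact mul_mem (natCast_mem _ _) (Algebra.subset_adjoin ⟨b i, rfl⟩)
  have hw1 : ∀ i, (∏ v ∈ D, u v ^ c i v) ∈ LN N := fun i =>
    prod_mem fun v hv => pow_mem (hu v hv).1 _
  have hw2 : ∀ i, UP P (∏ v ∈ D, u v ^ c i v) := fun i =>
    DI.UP.prod D _ fun v hv => DI.UP.pow (hu v hv).2 _
  have hkap : ∀ i, ∀ d : Gal(Om/ℚ), DD LN P d → kap (∏ v ∈ D, u v ^ c i v) d = 0 := by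
    intro i d hd
    have h4 := hk d hd
    rw [G9_split D χ b c] at h4
    have h5 : MP P (∑ v ∈ D, (χ v - ∑ i, (c i v : Om) * χ (b i)) * ((kap (u v) d).val : Om)) :=
      DI.MP.sum D _ fun v hv => DI.MP.mul_right (hc v hv) (DI.VP.nat _)
    have h6 := DI.MP.sub h4 h5
    rw [add_sub_cancel_left] at h6
    have h7 : ∑ i, χ (b i) * ∑ v ∈ D, (c i v : Om) * ((kap (u v) d).val : Om) =
        ∑ i, ((∑ v ∈ D, c i v * (kap (u v) d).val : ℕ) : Om) * χ (b i) := by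
      refine Finset.sum_congr rfl fun i _ => ?_
      push_cast
      ring
    rw [h7] at h6
    have h8 := hind _ h6 i
    have hL : Fx L d := ((hS.lnx N (zet (3 ^ N)) hN1 (zet_prim _ (by positivity)) d).1
      (hd.2 N hN1)).1
    rw [hKap.2.2.2 ι D u (c i) d (hL _ hS.mu)
      (fun v hv => ⟨DI.UP.ne_zero (hu v hv).2, hd.2 N hN1 _ (hu v hv).1⟩)]
    have h9 := (ZMod.natCast_eq_zero_iff _ 3).2 h8
    push_cast at h9
    simpa only [ZMod.natCast_zmod_val] using h9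
  have hwi : ∀ i, ∃ k : ℕ, TP P 3 (s (∏ v ∈ D, u v ^ c i v) / (∏ v ∈ D, u v ^ c i v) - 1 -
      k * (1 - zet 3)) := fun i =>
    hG8 L LN P hS N hN s hs _ (hw1 i) (hw2 i) (hkap i)
  choose k hwk using hwi
  have huv : ∀ v ∈ D, TP P lam (s (u v) / u v - 1) := fun v hv =>
    G9_div (hu v hv).2 (hG4 L LN P hS N hN s hs _ (hu v hv).1 (hu v hv).2.1)
  have hD : ∀ i, TP P 3 (∑ v ∈ D, (c i v : Om) * (s (u v) / u v - 1) - k i * (1 - zet 3)) := by
    intro i
    have h4 := hDad P hP h3 s ι D u (c i) (fun v hv => ⟨DI.UP.ne_zero (hu v hv).2, huv v hv⟩)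
    have h5 := tp_sub (hwk i) h4
    have h6 : ∑ v ∈ D, (c i v : Om) * (s (u v) / u v - 1) - k i * (1 - zet 3) =
      (s (∏ v ∈ D, u v ^ c i v) / (∏ v ∈ D, u v ^ c i v) - 1 - k i * (1 - zet 3)) -
        ((s (∏ v ∈ D, u v ^ c i v) / (∏ v ∈ D, u v ^ c i v) - 1) -
          ∑ v ∈ D, (c i v : Om) * (s (u v) / u v - 1)) := by ring
    rw [h6]
    exact h5
  refine ⟨∑ i, (k i : Om) * χ (b i), sum_mem fun i _ => mul_mem (natCast_mem _ _)
    (Algebra.subset_adjoin ⟨b i, rfl⟩), ?_⟩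
  rw [G9_split D χ b c, Finset.sum_mul, add_sub_assoc, ← Finset.sum_sub_distrib]
  refine tp_add (tp_sum _ _ _ fun v hv => tp_mul_right (hρ v hv) (tp_vp (huv v hv) lam_vp))
    (tp_sum _ _ _ fun i _ => ?_)
  have h4 : χ (b i) * ∑ v ∈ D, (c i v : Om) * (s (u v) / u v - 1) -
      (k i : Om) * χ (b i) * (1 - zet 3) =
      χ (b i) * (∑ v ∈ D, (c i v : Om) * (s (u v) / u v - 1) - k i * (1 - zet 3)) := by ring
  rw [h4]
  exact tp_mul (hV _) (hD i)

end Pool.Agent.DT.GL
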