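import Pool.Agent.Lib.DT.GL.Spec

/-!
# Theorem DT, part GL, module Uni: independence of the powers of `ζ` over a tamely ramified field
-/

set_option autoImplicit false

open scoped Pointwise

noncomputable section

namespace Pool.Agent.DT.GL

open Pool.Agent.MuZ Pool.Agent.FW
open Pool.Agent.DI (VP MP UP TP)
open Pool.Agent.DI.GL (Fx StP mem_of_Fx Fx.mul Fx.inv Fx.one)

/-- Elements of `M` in `M_P` are divisible by `lam`. -/
private theorem Uni_tam {P : Ideal ZZ} [P.IsPrime] {M : IntermediateField ℚ Om} (hM : Tam P M)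
    {x : Om} (hx : x ∈ M) (h : MP P x) : TP P lam x := by
  rw [tp_iff lam_ne]
  refine DI.VP.of_pow (n := 2) (by norm_num) ?_
  have h1 : (x / lam) ^ 2 = x ^ 2 / 3 * -(zet 3) ^ 2 := by
    have h0 : zet 3 ≠ 0 := zet3_prim.ne_zero (by norm_num)
    have h2 := zet3_cube
    rw [div_pow, lam_sq]
    rw [div_eq_iff (by simpa using h0)]
    linear_combination (-x ^ 2) * h2
  rw [h1]
  exact (hM x hx h).mul (DI.VP.neg (DI.VP.pow zet3_vp 2))

theorem tUni : S_Uni := by
  intro hX P hP h3 M N ζ hN hz hM A hAM hAV hT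
  obtain ⟨hx0, hxM, -, -, hxU⟩ := hX P hP h3 N hN ζ hz
  obtain ⟨m, rfl⟩ : ∃ m, N = m + 1 := ⟨N - 1, by omega⟩
  have hm : m + 1 - 1 = m := rfl
  rw [hm] at hT hxU ⊢
  set l : Om := ζ - 1 with hl
  have hζl : ζ = l + 1 := by rw [hl]; ring
  have hlM : MP P l := by
    have := hxM.neg
    rwa [neg_sub] at this
  have hlV : VP P l := hlM.vp
  set n : ℕ := 3 ^ m with hn
  have hn0 : 0 < n := by rw [hn]; positivity
  obtain ⟨u, hu, hln⟩ : ∃ u : Om, UP P u ∧ l ^ n = lam * u := by
    refine ⟨(-1) ^ n * ((1 - ζ) ^ n / lam), ?_, ?_⟩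
    · exact DI.UP.mul (DI.UP.pow (DI.UP.neg DI.UP.one) n) hxU
    · have e : l = (-1) * (1 - ζ) := by rw [hl]; ring
      rw [e, mul_pow]
      field_simp [lam_ne]
  have hl0 : l ≠ 0 := by
    intro h0
    refine hx0 ?_
    rw [← neg_sub, ← hl, h0, neg_zero]
  -- elements of `lam V_P` are divisible by `l ^ n`
  have hdiv : ∀ x : Om, TP P lam x → ∃ y, VP P y ∧ x = l ^ n * y := by
    rintro x ⟨y, hy, rfl⟩
    refine ⟨u⁻¹ * y, hu.inv.1.mul hy, ?_⟩
    rw [hln]
    have := hu.ne_zero
    rw [mul_assoc, mul_inv_cancel_left₀ this]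
  -- the coefficients
  set B : ℕ → Om := fun k => ∑ c ∈ Finset.range n, (c.choose k : Om) * A c with hB
  have hBM : ∀ k, B k ∈ M := fun k =>
    sum_mem fun c _ => mul_mem (natCast_mem M _) (hAM c)
  have hBV : ∀ k, VP P (B k) := fun k => DI.VP.sum _ _ fun c _ => (DI.VP.nat _).mul (hAV c)
  have hsum : ∑ c ∈ Finset.range n, ζ ^ c * A c = ∑ k ∈ Finset.range n, l ^ k * B k := by
    have h3 : ∀ c ∈ Finset.range n, ζ ^ c * A c =
        ∑ k ∈ Finset.range n, l ^ k * ((c.choose k : Om) * A c) := by
      intro c hc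
      have hc' : c < n := Finset.mem_range.1 hc
      have h4 : ζ ^ c = ∑ k ∈ Finset.range n, l ^ k * (c.choose k : Om) := by
        rw [hζl, add_pow]
        have h5 : Finset.range (c + 1) ⊆ Finset.range n :=
          Finset.range_subset_range.2 (by omega)
        rw [← Finset.sum_subset h5]
        · refine Finset.sum_congr rfl fun k _ => ?_
          rw [one_pow, mul_one]
        · intro k _ hk
          rw [Finset.mem_range, not_lt] at hk
          rw [Nat.choose_eq_zero_of_lt (by omega), Nat.cast_zero, mul_zero]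
      rw [h4, Finset.sum_mul]
      exact Finset.sum_congr rfl fun k _ => by ring
    rw [Finset.sum_congr rfl h3, Finset.sum_comm]
    exact Finset.sum_congr rfl fun k _ => by rw [hB, Finset.mul_sum]
  rw [hsum] at hT
  have hBT : ∀ k, k < n → TP P lam (B k) := by
    intro k
    induction k using Nat.strong_induction_on with
    | _ k ih =>
      intro hk
      by_contra hcon
      have hBU : ¬ MP P (B k) := fun h3 => hcon (Uni_tam hM (hBM k) h3)
      obtain ⟨q, hq⟩ : ∃ q, n = k + (q + 1) := ⟨n - k - 1, by omega⟩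
      have hsplit : ∑ j ∈ Finset.range n, l ^ j * B j = (∑ j ∈ Finset.range k, l ^ j * B j) +
          l ^ k * (B k + l * ∑ j ∈ Finset.range q, l ^ j * B (k + (j + 1))) := by
        have h4 : Finset.range n = Finset.range (k + (q + 1)) := by rw [← hq]
        rw [h4, Finset.sum_range_add, Finset.sum_range_succ']
        have h5 : ∑ j ∈ Finset.range q, l ^ (k + (j + 1)) * B (k + (j + 1)) =
            l ^ k * (l * ∑ j ∈ Finset.range q, l ^ j * B (k + (j + 1))) := by
          rw [Finset.mul_sum, Finset.mul_sum]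
          exact Finset.sum_congr rfl fun j _ => by ring
        rw [h5, add_zero]
        ring
      have h6 : TP P lam (∑ j ∈ Finset.range k, l ^ j * B j) :=
        tp_sum _ _ _ fun j hj => by
          have hj' := Finset.mem_range.1 hj
          exact tp_mul (hlV.pow j) (ih j hj' (by omega))
      have h7 : TP P lam (l ^ k * (B k + l * ∑ j ∈ Finset.range q, l ^ j * B (k + (j + 1)))) := by
        have := tp_sub hT h6
        rwa [hsplit, add_sub_cancel_left] at this
      obtain ⟨y, hy, h8⟩ := hdiv _ h7
      have h9 : B k + l * ∑ j ∈ Finset.range q, l ^ j * B (k + (j + 1)) = l * (l ^ q * y) := by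
        refine mul_left_cancel₀ (pow_ne_zero k hl0) ?_
        rw [h8, hq]
        ring
      refine hBU ?_
      have h10 : B k = l * (l ^ q * y - ∑ j ∈ Finset.range q, l ^ j * B (k + (j + 1))) := by
        linear_combination h9
      rw [h10]
      exact DI.MP.mul_right hlM (((hlV.pow q).mul hy).sub
        (DI.VP.sum _ _ fun j _ => (hlV.pow j).mul (hBV _)))
  -- downward induction
  have hfin : ∀ d c : ℕ, c + d + 1 = n → TP P lam (A c) := by
    intro d
    induction d using Nat.strong_induction_on with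
    | _ d ih =>
      intro c hc
      have h3 : c ∈ Finset.range n := Finset.mem_range.2 (by omega)
      have h4 := hBT c (by omega)
      rw [hB] at h4
      have h5 := Finset.add_sum_erase (Finset.range n) (fun c' => (c'.choose c : Om) * A c') h3
      simp only [Nat.choose_self, Nat.cast_one, one_mul] at h5
      have h6 : A c = (∑ c' ∈ Finset.range n, (c'.choose c : Om) * A c') -
          ∑ c' ∈ (Finset.range n).erase c, (c'.choose c : Om) * A c' := by
        linear_combination h5
      rw [h6]
      refine tp_sub h4 (tp_sum _ _ _ fun c' hc' => ?_)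
      rw [Finset.mem_erase, Finset.mem_range] at hc'
      rcases Nat.lt_or_ge c' c with h7 | h7
      · rw [Nat.choose_eq_zero_of_lt h7, Nat.cast_zero, zero_mul]
        exact tp_zero _
      · exact tp_mul (DI.VP.nat _) (ih (n - 1 - c') (by omega) c' (by omega))
  intro c hc
  exact hfin (n - 1 - c) c (by omega)

end Pool.Agent.DT.GL
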